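import Mathlib

set_option autoImplicit false

/-! Upper asymptotic density (of the positive part) and Buck-type covering density of sets of
integers. -/

namespace Pool.Agent.V11312

/-- the affine image `k·X + h` -/
def aff (k h : ℤ) (X : Set ℤ) : Set ℤ := (fun x => k * x + h) '' X

theorem mem_aff {k h : ℤ} {X : Set ℤ} {y : ℤ} : y ∈ aff k h X ↔ ∃ x ∈ X, k * x + h = y := Iff.rfl

theorem aff_union (k h : ℤ) (X Y : Set ℤ) : aff k h (X ∪ Y) = aff k h X ∪ aff k h Y :=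
  Set.image_union _ _ _

theorem aff_mono (k h : ℤ) {X Y : Set ℤ} (hXY : X ⊆ Y) : aff k h X ⊆ aff k h Y :=
  Set.image_mono hXY

theorem aff_inj {k : ℤ} (hk : 1 ≤ k) (h : ℤ) : Function.Injective (fun x : ℤ => k * x + h) := by
  intro x y hxy
  have h1 : k * x = k * y := by simpa using hxy
  exact mul_left_cancel₀ (by omega) h1

theorem aff_comp (k h k' h' : ℤ) (X : Set ℤ) :
    aff k h (aff k' h' X) = aff (k * k') (k * h' + h) X := by
  unfold aff
  rw [Set.image_image]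
  apply Set.image_congr
  intro x _
  ring

/-- counting function of the positive part -/
noncomputable def cnt (X : Set ℤ) (n : ℕ) : ℕ := (X ∩ Set.Icc 1 (n : ℤ)).ncard

theorem fin_cnt (X : Set ℤ) (n : ℕ) : (X ∩ Set.Icc 1 (n : ℤ)).Finite :=
  (Set.finite_Icc _ _).subset Set.inter_subset_right

theorem cnt_mono {X Y : Set ℤ} (h : X ⊆ Y) (n : ℕ) : cnt X n ≤ cnt Y n :=
  Set.ncard_le_ncard (Set.inter_subset_inter_left _ h) (fin_cnt Y n)

theorem cnt_univ (n : ℕ) : (Set.Icc 1 (n : ℤ)).ncard = n := by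
  rw [← Finset.coe_Icc, Set.ncard_coe_finset, Int.card_Icc]
  simp

theorem cnt_le (X : Set ℤ) (n : ℕ) : cnt X n ≤ n := by
  have h := Set.ncard_le_ncard (Set.inter_subset_right : X ∩ Set.Icc 1 (n : ℤ) ⊆ _)
    (Set.finite_Icc _ _)
  rwa [cnt_univ] at h

theorem cnt_union (X Y : Set ℤ) (n : ℕ) : cnt (X ∪ Y) n ≤ cnt X n + cnt Y n := by
  unfold cnt
  rw [Set.union_inter_distrib_right]
  exact Set.ncard_union_le _ _

theorem cnt_full {X : Set ℤ} (h : ∀ x : ℤ, 1 ≤ x → x ∈ X) (n : ℕ) : cnt X n = n := by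
  unfold cnt
  rw [Set.inter_eq_self_of_subset_right, cnt_univ]
  intro x hx
  exact h x hx.1

/-- `t` is an admissible upper bound for the density of `X` -/
def IsBd (X : Set ℤ) (t : ℝ) : Prop := 0 ≤ t ∧ ∃ C : ℝ, ∀ n : ℕ, (cnt X n : ℝ) ≤ t * n + C

/-- the upper asymptotic density of the positive part of `X` -/
noncomputable def D (X : Set ℤ) : ℝ := sInf {t : ℝ | IsBd X t}

theorem isBd_one (X : Set ℤ) : IsBd X 1 :=
  ⟨zero_le_one, 0, fun n => by
    have : (cnt X n : ℝ) ≤ n := by exact_mod_cast cnt_le X n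
    linarith⟩

theorem D_le {X : Set ℤ} {t : ℝ} (h : IsBd X t) : D X ≤ t :=
  csInf_le ⟨0, fun _ hs => hs.1⟩ h

theorem le_D {X : Set ℤ} {s : ℝ} (h : ∀ t, IsBd X t → s ≤ t) : s ≤ D X :=
  le_csInf ⟨1, isBd_one X⟩ h

theorem D_nonneg (X : Set ℤ) : 0 ≤ D X := le_D fun _ h => h.1

theorem D_le_one (X : Set ℤ) : D X ≤ 1 := D_le (isBd_one X)

theorem IsBd.mono {X Y : Set ℤ} (h : X ⊆ Y) {t : ℝ} (ht : IsBd Y t) : IsBd X t := by
  obtain ⟨h0, C, hC⟩ := ht
  exact ⟨h0, C, fun n => (by exact_mod_cast cnt_mono h n : (cnt X n : ℝ) ≤ cnt Y n).trans (hC n)⟩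

theorem D_mono {X Y : Set ℤ} (h : X ⊆ Y) : D X ≤ D Y := le_D fun _ ht => D_le (ht.mono h)

/-- for every `ε > 0`, `D X + ε` is an admissible bound -/
theorem isBd_add (X : Set ℤ) {ε : ℝ} (hε : 0 < ε) : ∃ t, IsBd X t ∧ t < D X + ε := by
  obtain ⟨t, ht, hlt⟩ := exists_lt_of_csInf_lt (s := {t : ℝ | IsBd X t}) ⟨1, isBd_one X⟩
    (show sInf {t : ℝ | IsBd X t} < D X + ε by unfold D; linarith)
  exact ⟨t, ht, hlt⟩

theorem D_union (X Y : Set ℤ) : D (X ∪ Y) ≤ D X + D Y := by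
  apply le_of_forall_pos_le_add
  intro ε hε
  obtain ⟨t, ⟨ht0, C, hC⟩, ht⟩ := isBd_add X (half_pos hε)
  obtain ⟨s, ⟨hs0, C', hC'⟩, hs⟩ := isBd_add Y (half_pos hε)
  have h : IsBd (X ∪ Y) (t + s) := by
    refine ⟨by linarith, C + C', fun n => ?_⟩
    have h1 : (cnt (X ∪ Y) n : ℝ) ≤ cnt X n + cnt Y n := by exact_mod_cast cnt_union X Y n
    have h2 := hC n
    have h3 := hC' n
    nlinarith
  have := D_le h
  linarith

theorem D_full {X : Set ℤ} (h : ∀ x : ℤ, 1 ≤ x → x ∈ X) : D X = 1 := by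
  apply le_antisymm (D_le_one X)
  apply le_D
  rintro t ⟨ht0, C, hC⟩
  by_contra hlt
  push Not at hlt
  obtain ⟨n, hn⟩ := exists_nat_gt (C / (1 - t))
  have h1 := hC n
  rw [cnt_full h] at h1
  rw [div_lt_iff₀ (by linarith)] at hn
  nlinarith

theorem isBd_affine {X : Set ℤ} {t : ℝ} (ht : IsBd X t) {k : ℕ} (hk : 1 ≤ k) (h : ℤ) :
    IsBd (aff k h X) (t / k) := by
  obtain ⟨ht0, C, hC⟩ := ht
  have hk0 : (0 : ℝ) < k := by exact_mod_cast hk
  refine ⟨by positivity, t * h.natAbs + C + h.natAbs + 1, fun n => ?_⟩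
  have hsub : (aff k h X ∩ Set.Icc 1 (n : ℤ)) ⊆
      (fun x : ℤ => (k : ℤ) * x + h) '' ((X ∩ Set.Icc 1 ((n / k + h.natAbs : ℕ) : ℤ)) ∪
        Set.Icc (-(h.natAbs : ℤ)) 0) := by
    rintro y ⟨⟨x, hx, rfl⟩, hy1, hy2⟩
    refine ⟨x, ?_, rfl⟩
    simp only at hy1 hy2
    have habs : -(h.natAbs : ℤ) ≤ h ∧ h ≤ (h.natAbs : ℤ) := by omega
    by_cases hx1 : 1 ≤ x
    · left
      refine ⟨hx, hx1, ?_⟩
      have h0 : ((n / k + h.natAbs : ℕ) : ℤ) = (n : ℤ) / k + h.natAbs := by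
        rw [Nat.cast_add, Int.natCast_div]
      rw [h0]
      have h1 : (k : ℤ) * x ≤ n + h.natAbs := by omega
      have h2 : (k : ℤ) * (x - h.natAbs) ≤ n := by
        have : (h.natAbs : ℤ) ≤ k * h.natAbs := by
          have : (1 : ℤ) * h.natAbs ≤ k * h.natAbs :=
            mul_le_mul_of_nonneg_right (by exact_mod_cast hk) (by positivity)
          linarith
        linarith
      have h3 : x - h.natAbs ≤ (n : ℤ) / k := by
        rw [Int.le_ediv_iff_mul_le (by exact_mod_cast hk)]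
        linarith
      linarith
    · right
      push Not at hx1
      constructor
      · by_contra hlt
        push Not at hlt
        have h1 : (k : ℤ) * x ≤ k * (-(h.natAbs : ℤ) - 1) :=
          mul_le_mul_of_nonneg_left (by omega) (by positivity)
        have h2 : (k : ℤ) * (-(h.natAbs : ℤ) - 1) ≤ 1 * (-(h.natAbs : ℤ) - 1) :=
          mul_le_mul_of_nonpos_right (by exact_mod_cast hk) (by omega)
        omega
      · omega
  have h1 : cnt (aff k h X) n ≤ cnt X (n / k + h.natAbs) + (h.natAbs + 1) := by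
    unfold cnt
    have hfin : ((X ∩ Set.Icc 1 ((n / k + h.natAbs : ℕ) : ℤ)) ∪
        Set.Icc (-(h.natAbs : ℤ)) 0).Finite := (fin_cnt X _).union (Set.finite_Icc _ _)
    refine (Set.ncard_le_ncard hsub (hfin.image _)).trans ?_
    refine (Set.ncard_image_le hfin).trans ?_
    refine (Set.ncard_union_le _ _).trans ?_
    have h2 : (Set.Icc (-(h.natAbs : ℤ)) 0).ncard = h.natAbs + 1 := by
      rw [← Finset.coe_Icc, Set.ncard_coe_finset, Int.card_Icc]
      omega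
    rw [h2]
  have h2 := hC (n / k + h.natAbs)
  have h3 : ((n / k + h.natAbs : ℕ) : ℝ) ≤ n / k + h.natAbs := by
    push_cast
    have := Nat.cast_div_le (α := ℝ) (m := n) (n := k)
    linarith
  have h4 : t * ((n / k + h.natAbs : ℕ) : ℝ) ≤ t * (n / k + h.natAbs) :=
    mul_le_mul_of_nonneg_left h3 ht0
  have h5 : (cnt (aff k h X) n : ℝ) ≤ cnt X (n / k + h.natAbs) + (h.natAbs + 1) := by
    exact_mod_cast h1
  have h6 : t * ((n : ℝ) / k + h.natAbs) = t / k * n + t * h.natAbs := by ring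
  linarith

theorem isBd_of_affine {X : Set ℤ} {t : ℝ} {k : ℕ} (hk : 1 ≤ k) {h : ℤ}
    (ht : IsBd (aff k h X) t) : IsBd X (k * t) := by
  obtain ⟨ht0, C, hC⟩ := ht
  have hk0 : (0 : ℝ) < k := by exact_mod_cast hk
  refine ⟨by positivity, t * h.natAbs + C + h.natAbs, fun n => ?_⟩
  have hsub : (fun x : ℤ => (k : ℤ) * x + h) '' (X ∩ Set.Icc 1 (n : ℤ)) ⊆
      (aff k h X ∩ Set.Icc 1 ((k * n + h.natAbs : ℕ) : ℤ)) ∪
        (fun x : ℤ => (k : ℤ) * x + h) '' (Set.Icc 1 (h.natAbs : ℤ)) := by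
    rintro y ⟨x, ⟨hx, hx1, hx2⟩, rfl⟩
    have habs : -(h.natAbs : ℤ) ≤ h ∧ h ≤ (h.natAbs : ℤ) := by omega
    by_cases h1 : 1 ≤ (k : ℤ) * x + h
    · left
      refine ⟨⟨x, hx, rfl⟩, h1, ?_⟩
      have h0 : ((k * n + h.natAbs : ℕ) : ℤ) = (k : ℤ) * n + h.natAbs := by
        rw [Nat.cast_add, Nat.cast_mul]
      rw [h0]
      have : (k : ℤ) * x ≤ k * n := mul_le_mul_of_nonneg_left hx2 (by positivity)
      show (k : ℤ) * x + h ≤ k * n + h.natAbs
      linarith
    · right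
      refine ⟨x, ⟨hx1, ?_⟩, rfl⟩
      push Not at h1
      have : (1 : ℤ) * x ≤ k * x := mul_le_mul_of_nonneg_right (by exact_mod_cast hk) (by omega)
      omega
  have hinj := aff_inj (k := (k : ℤ)) (by exact_mod_cast hk) h
  have h1 : cnt X n ≤ cnt (aff k h X) (k * n + h.natAbs) + h.natAbs := by
    have e1 : cnt X n = ((fun x : ℤ => (k : ℤ) * x + h) '' (X ∩ Set.Icc 1 (n : ℤ))).ncard := by
      rw [Set.ncard_image_of_injective _ hinj]; rfl
    rw [e1]
    refine (Set.ncard_le_ncard hsub ((fin_cnt _ _).union ((Set.finite_Icc _ _).image _))).trans ?_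
    refine (Set.ncard_union_le _ _).trans ?_
    rw [Set.ncard_image_of_injective _ hinj, cnt_univ]
    exact le_rfl
  have h2 := hC (k * n + h.natAbs)
  have h3 : (cnt X n : ℝ) ≤ cnt (aff k h X) (k * n + h.natAbs) + h.natAbs := by exact_mod_cast h1
  have h4 : ((k * n + h.natAbs : ℕ) : ℝ) = k * n + h.natAbs := by push_cast; ring
  rw [h4] at h2
  have h5 : t * ((k : ℝ) * n + h.natAbs) = k * t * n + t * h.natAbs := by ring
  linarith

theorem D_affine (X : Set ℤ) {k : ℕ} (hk : 1 ≤ k) (h : ℤ) : D (aff k h X) = 1 / (k : ℝ) * D X := by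
  have hk0 : (0 : ℝ) < k := by exact_mod_cast hk
  apply le_antisymm
  · apply le_of_forall_pos_le_add
    intro ε hε
    obtain ⟨t, ht, hlt⟩ := isBd_add X hε
    have h1 := D_le (isBd_affine ht hk h)
    have h2 : t / k ≤ 1 / (k : ℝ) * D X + ε := by
      rw [div_le_iff₀ hk0]
      have h3 : (1 / (k : ℝ) * D X + ε) * k = D X + ε * k := by field_simp
      have h4 : ε * 1 ≤ ε * k := mul_le_mul_of_nonneg_left (by exact_mod_cast hk) hε.le
      linarith
    linarith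
  · apply le_D
    intro t ht
    have h1 := D_le (isBd_of_affine hk ht)
    rw [one_div, inv_mul_le_iff₀ hk0]
    exact h1

/-- the residue class of `a` modulo `m` -/
def AP (a : ℤ) (m : ℕ) : Set ℤ := {x : ℤ | (m : ℤ) ∣ x - a}

theorem AP_eq_aff (a : ℤ) (m : ℕ) : AP a m = aff m a Set.univ := by
  ext x
  constructor
  · rintro ⟨q, hq⟩
    exact ⟨q, trivial, by show (m : ℤ) * q + a = x; linarith⟩
  · rintro ⟨q, _, rfl⟩
    exact ⟨q, by ring⟩

theorem D_AP (a : ℤ) {m : ℕ} (hm : 1 ≤ m) : D (AP a m) = 1 / (m : ℝ) := by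
  rw [AP_eq_aff, D_affine _ hm, D_full (X := Set.univ) (fun _ _ => trivial), mul_one]

theorem D_empty : D ∅ = 0 := by
  apply le_antisymm _ (D_nonneg _)
  apply D_le
  refine ⟨le_rfl, 0, fun n => ?_⟩
  simp [cnt]

/-- total weight of a list of residue classes -/
noncomputable def wt (L : List (ℤ × ℕ)) : ℝ := (L.map (fun p => 1 / (p.2 : ℝ))).sum

/-- union of a list of residue classes -/
def U (L : List (ℤ × ℕ)) : Set ℤ := {x | ∃ p ∈ L, x ∈ AP p.1 p.2}

/-- `X` is covered by the classes of the list `L` -/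
def IsCover (X : Set ℤ) (L : List (ℤ × ℕ)) : Prop := (∀ p ∈ L, 1 ≤ p.2) ∧ X ⊆ U L

/-- the covering (Buck) upper density -/
noncomputable def B (X : Set ℤ) : ℝ := sInf {t : ℝ | ∃ L, IsCover X L ∧ t = wt L}

theorem wt_nonneg (L : List (ℤ × ℕ)) : 0 ≤ wt L := by
  unfold wt
  apply List.sum_nonneg
  intro t ht
  rw [List.mem_map] at ht
  obtain ⟨p, _, rfl⟩ := ht
  positivity

theorem cover_one (X : Set ℤ) : IsCover X [(0, 1)] := by
  refine ⟨by simp, fun x _ => ⟨(0, 1), by simp, ?_⟩⟩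
  show ((1 : ℕ) : ℤ) ∣ x - 0
  simp

theorem B_le {X : Set ℤ} {L : List (ℤ × ℕ)} (h : IsCover X L) : B X ≤ wt L :=
  csInf_le ⟨0, by rintro _ ⟨L, _, rfl⟩; exact wt_nonneg L⟩ ⟨L, h, rfl⟩

theorem le_B {X : Set ℤ} {s : ℝ} (h : ∀ L, IsCover X L → s ≤ wt L) : s ≤ B X :=
  le_csInf ⟨_, [(0, 1)], cover_one X, rfl⟩ (by rintro _ ⟨L, hL, rfl⟩; exact h L hL)

theorem B_nonneg (X : Set ℤ) : 0 ≤ B X := le_B fun L _ => wt_nonneg L

theorem B_le_one (X : Set ℤ) : B X ≤ 1 := (B_le (cover_one X)).trans (by simp [wt])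

theorem B_mono {X Y : Set ℤ} (h : X ⊆ Y) : B X ≤ B Y :=
  le_B fun _ hL => B_le ⟨hL.1, h.trans hL.2⟩

theorem exists_cover (X : Set ℤ) {ε : ℝ} (hε : 0 < ε) : ∃ L, IsCover X L ∧ wt L < B X + ε := by
  obtain ⟨t, ⟨L, hL, rfl⟩, hlt⟩ := exists_lt_of_csInf_lt
    (s := {t : ℝ | ∃ L, IsCover X L ∧ t = wt L}) ⟨_, [(0, 1)], cover_one X, rfl⟩
    (show sInf {t : ℝ | ∃ L, IsCover X L ∧ t = wt L} < B X + ε by unfold B; linarith)
  exact ⟨L, hL, hlt⟩

theorem wt_append (L L' : List (ℤ × ℕ)) : wt (L ++ L') = wt L + wt L' := by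
  unfold wt
  rw [List.map_append, List.sum_append]

theorem B_union (X Y : Set ℤ) : B (X ∪ Y) ≤ B X + B Y := by
  apply le_of_forall_pos_le_add
  intro ε hε
  obtain ⟨L, hL, hlt⟩ := exists_cover X (half_pos hε)
  obtain ⟨L', hL', hlt'⟩ := exists_cover Y (half_pos hε)
  have h : IsCover (X ∪ Y) (L ++ L') := by
    refine ⟨?_, ?_⟩
    · intro p hp
      rw [List.mem_append] at hp
      exact hp.elim (hL.1 p) (hL'.1 p)
    · rintro x (hx | hx)
      · obtain ⟨p, hp, hxp⟩ := hL.2 hx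
        exact ⟨p, List.mem_append_left _ hp, hxp⟩
      · obtain ⟨p, hp, hxp⟩ := hL'.2 hx
        exact ⟨p, List.mem_append_right _ hp, hxp⟩
  have h1 := B_le h
  rw [wt_append] at h1
  linarith

theorem wt_map_le (L : List (ℤ × ℕ)) (f : ℤ × ℕ → ℤ × ℕ) (c : ℝ)
    (hf : ∀ p ∈ L, 1 / ((f p).2 : ℝ) ≤ c * (1 / (p.2 : ℝ))) : wt (L.map f) ≤ c * wt L := by
  induction L with
  | nil => simp [wt]
  | cons p L ih =>
    have h1 := ih (fun q hq => hf q (List.mem_cons_of_mem _ hq))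
    have h2 := hf p (List.mem_cons_self)
    unfold wt at h1 ⊢
    simp only [List.map_cons, List.sum_cons]
    rw [mul_add]
    linarith

theorem B_affine (X : Set ℤ) {k : ℕ} (hk : 1 ≤ k) (h : ℤ) : B (aff k h X) = 1 / (k : ℝ) * B X := by
  have hk0 : (0 : ℝ) < k := by exact_mod_cast hk
  apply le_antisymm
  · -- image covers
    have key : k * B (aff k h X) ≤ B X := by
      apply le_B
      intro L hL
      have hc : IsCover (aff k h X) (L.map (fun p => ((k : ℤ) * p.1 + h, k * p.2))) := by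
        refine ⟨?_, ?_⟩
        · intro p hp
          rw [List.mem_map] at hp
          obtain ⟨q, hq, rfl⟩ := hp
          exact Nat.mul_pos hk (hL.1 q hq)
        · rintro y ⟨x, hx, rfl⟩
          obtain ⟨p, hp, hxp⟩ := hL.2 hx
          refine ⟨_, List.mem_map.mpr ⟨p, hp, rfl⟩, ?_⟩
          show ((k * p.2 : ℕ) : ℤ) ∣ (k : ℤ) * x + h - ((k : ℤ) * p.1 + h)
          have h1 : (k : ℤ) * x + h - ((k : ℤ) * p.1 + h) = k * (x - p.1) := by ring
          rw [h1]
          push_cast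
          exact mul_dvd_mul_left _ hxp
      have h1 := B_le hc
      have h2 := wt_map_le L (fun p => ((k : ℤ) * p.1 + h, k * p.2)) (1 / k) (by
        intro p _
        push_cast
        rw [one_div_mul_one_div])
      have h3 : (k : ℝ) * (1 / k * wt L) = wt L := by field_simp
      calc (k : ℝ) * B (aff k h X) ≤ k * (1 / k * wt L) :=
            mul_le_mul_of_nonneg_left (h1.trans h2) hk0.le
        _ = wt L := h3
    rw [one_div, le_inv_mul_iff₀ hk0]
    exact key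
  · rw [one_div, inv_mul_le_iff₀ hk0]
    -- preimage covers
    have key : ∀ L, IsCover (aff k h X) L → B X ≤ k * wt L := by
      intro L hL
      have hex : ∀ p : ℤ × ℕ, 1 ≤ p.2 → ∃ x0 : ℤ, ∀ x : ℤ, (p.2 : ℤ) ∣ (k : ℤ) * x + h - p.1 →
          ((p.2 / Nat.gcd p.2 k : ℕ) : ℤ) ∣ x - x0 := by
        intro p hp
        by_cases hsol : ∃ x0 : ℤ, (p.2 : ℤ) ∣ (k : ℤ) * x0 + h - p.1
        · obtain ⟨x0, hx0⟩ := hsol
          refine ⟨x0, fun x hx => ?_⟩
          have h1 : (p.2 : ℤ) ∣ (k : ℤ) * (x - x0) := by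
            have := dvd_sub hx hx0
            have h2 : (k : ℤ) * x + h - p.1 - ((k : ℤ) * x0 + h - p.1) = k * (x - x0) := by ring
            rwa [h2] at this
          have hg : 0 < Nat.gcd p.2 k := Nat.gcd_pos_of_pos_left _ hp
          have h2 : p.2 ∣ k * (x - x0).natAbs := by
            have := Int.natAbs_dvd_natAbs.mpr h1
            rwa [Int.natAbs_natCast, Int.natAbs_mul, Int.natAbs_natCast] at this
          have h3 : p.2 / Nat.gcd p.2 k ∣ (x - x0).natAbs := by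
            have hcop : Nat.Coprime (p.2 / Nat.gcd p.2 k) (k / Nat.gcd p.2 k) :=
              Nat.coprime_div_gcd_div_gcd hg
            apply hcop.dvd_of_dvd_mul_left
            have h4 : Nat.gcd p.2 k * (p.2 / Nat.gcd p.2 k) = p.2 :=
              Nat.mul_div_cancel' (Nat.gcd_dvd_left _ _)
            have h5 : Nat.gcd p.2 k * (k / Nat.gcd p.2 k) = k :=
              Nat.mul_div_cancel' (Nat.gcd_dvd_right _ _)
            apply Nat.dvd_of_mul_dvd_mul_left hg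
            rw [h4, ← mul_assoc, h5]
            exact h2
          exact Int.natCast_dvd.mpr h3
        · exact ⟨0, fun x hx => absurd ⟨x, hx⟩ hsol⟩
      choose! x0 hx0 using hex
      have hc : IsCover X (L.map (fun p => (x0 p, p.2 / Nat.gcd p.2 k))) := by
        refine ⟨?_, ?_⟩
        · intro p hp
          rw [List.mem_map] at hp
          obtain ⟨q, hq, rfl⟩ := hp
          exact Nat.div_pos (Nat.le_of_dvd (hL.1 q hq) (Nat.gcd_dvd_left _ _))
            (Nat.gcd_pos_of_pos_left _ (hL.1 q hq))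
        · intro x hx
          obtain ⟨p, hp, hxp⟩ := hL.2 (show (k : ℤ) * x + h ∈ aff k h X from ⟨x, hx, rfl⟩)
          exact ⟨_, List.mem_map.mpr ⟨p, hp, rfl⟩, hx0 p (hL.1 p hp) x hxp⟩
      refine (B_le hc).trans (wt_map_le L _ k ?_)
      intro p hp
      have hp2 := hL.1 p hp
      have hg : 0 < Nat.gcd p.2 k := Nat.gcd_pos_of_pos_left _ hp2
      have hgk : Nat.gcd p.2 k ≤ k := Nat.le_of_dvd hk (Nat.gcd_dvd_right _ _)
      have h4 : (Nat.gcd p.2 k : ℝ) * ((p.2 / Nat.gcd p.2 k : ℕ) : ℝ) = p.2 := by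
        exact_mod_cast Nat.mul_div_cancel' (Nat.gcd_dvd_left p.2 k)
      have h5 : (0 : ℝ) < ((p.2 / Nat.gcd p.2 k : ℕ) : ℝ) := by
        exact_mod_cast Nat.div_pos (Nat.le_of_dvd hp2 (Nat.gcd_dvd_left _ _)) hg
      have h6 : (0 : ℝ) < p.2 := by exact_mod_cast hp2
      show 1 / ((p.2 / Nat.gcd p.2 k : ℕ) : ℝ) ≤ k * (1 / (p.2 : ℝ))
      rw [mul_one_div, div_le_div_iff₀ h5 h6, one_mul, ← h4]
      exact mul_le_mul_of_nonneg_right (by exact_mod_cast hgk) h5.le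
    have h2 : B X / k ≤ B (aff k h X) := by
      apply le_B
      intro L hL
      rw [div_le_iff₀ hk0]
      have := key L hL
      linarith
    rw [div_le_iff₀ hk0] at h2
    linarith

theorem D_U_le (L : List (ℤ × ℕ)) (hL : ∀ p ∈ L, 1 ≤ p.2) : D (U L) ≤ wt L := by
  induction L with
  | nil =>
    have : U [] = ∅ := by ext x; simp [U]
    rw [this, D_empty]
    simp [wt]
  | cons p L ih =>
    have h1 : U (p :: L) = AP p.1 p.2 ∪ U L := by
      ext x
      constructor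
      · rintro ⟨q, hq, hx⟩
        rcases List.mem_cons.mp hq with rfl | hq
        · exact Or.inl hx
        · exact Or.inr ⟨q, hq, hx⟩
      · rintro (hx | ⟨q, hq, hx⟩)
        · exact ⟨p, List.mem_cons_self, hx⟩
        · exact ⟨q, List.mem_cons_of_mem _ hq, hx⟩
    rw [h1]
    refine (D_union _ _).trans ?_
    have h2 := ih (fun q hq => hL q (List.mem_cons_of_mem _ hq))
    rw [D_AP _ (hL p List.mem_cons_self)]
    unfold wt at h2 ⊢
    simp only [List.map_cons, List.sum_cons]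
    linarith

theorem D_le_B (X : Set ℤ) : D X ≤ B X :=
  le_B fun L hL => (D_mono hL.2).trans (D_U_le L hL.1)

/-- a set meeting every residue class has covering density `1` -/
theorem B_eq_one {X : Set ℤ} (hX : ∀ (M : ℕ) (r : ℤ), 1 ≤ M → ∃ x ∈ X, (M : ℤ) ∣ x - r) :
    B X = 1 := by
  apply le_antisymm (B_le_one X)
  apply le_B
  intro L hL
  have hU : U L = Set.univ := by
    ext r
    simp only [Set.mem_univ, iff_true]
    have hM : 1 ≤ (L.map Prod.snd).prod := by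
      apply Nat.one_le_iff_ne_zero.mpr
      intro h0
      rw [List.prod_eq_zero_iff, List.mem_map] at h0
      obtain ⟨p, hp, hp0⟩ := h0
      have := hL.1 p hp
      omega
    obtain ⟨x, hx, hxr⟩ := hX _ r hM
    obtain ⟨p, hp, hxp⟩ := hL.2 hx
    refine ⟨p, hp, ?_⟩
    have h1 : (p.2 : ℤ) ∣ ((L.map Prod.snd).prod : ℕ) := by
      exact_mod_cast List.dvd_prod (List.mem_map.mpr ⟨p, hp, rfl⟩)
    have h2 := h1.trans hxr
    show (p.2 : ℤ) ∣ r - p.1
    have h3 : r - p.1 = (x - p.1) - (x - r) := by ring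
    rw [h3]
    exact dvd_sub hxp h2
  have h1 := D_U_le L hL.1
  rw [hU, D_full (X := Set.univ) (fun _ _ => trivial)] at h1
  exact h1

/-- the sparse set `{n! + n}` -/
def fac : Set ℤ := {y | ∃ n : ℕ, y = (n.factorial : ℤ) + n}

theorem sq_le_four_factorial (n : ℕ) : n * n ≤ 4 * n.factorial := by
  induction n with
  | zero => simp
  | succ n ih =>
    rcases n with _ | _ | n
    · decide
    · decide
    · rw [Nat.factorial_succ]
      have h1 := Nat.factorial_pos (n + 2)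
      nlinarith

theorem isBd_sparse {X : Set ℤ} (f : ℕ → ℤ) (hX : ∀ x ∈ X, 1 ≤ x → ∃ n : ℕ, x = f n)
    (hf : ∀ n : ℕ, (n : ℤ) * n ≤ 4 * f n) {t : ℝ} (ht : 0 < t) : IsBd X t := by
  refine ⟨ht.le, 1 / t + 1, fun n => ?_⟩
  have hsub : X ∩ Set.Icc 1 (n : ℤ) ⊆ f '' (Finset.range (Nat.sqrt (4 * n) + 1) : Set ℕ) := by
    rintro x ⟨hx, hx1, hx2⟩
    obtain ⟨j, rfl⟩ := hX x hx hx1
    refine ⟨j, ?_, rfl⟩
    rw [Finset.mem_coe, Finset.mem_range, Nat.lt_succ_iff, Nat.le_sqrt]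
    have := hf j
    have h1 : (j : ℤ) * j ≤ 4 * n := by linarith
    exact_mod_cast h1
  have h1 : cnt X n ≤ Nat.sqrt (4 * n) + 1 := by
    refine (Set.ncard_le_ncard hsub ((Finset.finite_toSet _).image _)).trans ?_
    refine (Set.ncard_image_le (Finset.finite_toSet _)).trans ?_
    rw [Set.ncard_coe_finset, Finset.card_range]
  have h2 : (cnt X n : ℝ) ≤ Nat.sqrt (4 * n) + 1 := by exact_mod_cast h1
  have h3 : (Nat.sqrt (4 * n) : ℝ) * Nat.sqrt (4 * n) ≤ 4 * n := by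
    exact_mod_cast Nat.sqrt_le (4 * n)
  have h4 : (Nat.sqrt (4 * n) : ℝ) ≤ t * n + 1 / t := by
    set s : ℝ := (Nat.sqrt (4 * n) : ℝ) with hs
    have h5 : 0 ≤ (s * t - 2) ^ 2 := sq_nonneg _
    have h6 : s * (4 * t) ≤ (t * n + 1 / t) * (4 * t) := by
      have h7 : (t * n + 1 / t) * (4 * t) = 4 * n * t ^ 2 + 4 := by field_simp
      rw [h7]
      nlinarith [mul_le_mul_of_nonneg_right h3 (sq_nonneg t)]
    exact le_of_mul_le_mul_right h6 (by positivity)
  linarith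

theorem D_sparse {X : Set ℤ} (f : ℕ → ℤ) (hX : ∀ x ∈ X, 1 ≤ x → ∃ n : ℕ, x = f n)
    (hf : ∀ n : ℕ, (n : ℤ) * n ≤ 4 * f n) : D X = 0 := by
  apply le_antisymm _ (D_nonneg X)
  apply le_of_forall_pos_le_add
  intro ε hε
  rw [zero_add]
  exact D_le (isBd_sparse f hX hf hε)

theorem fac_meets (b : ℤ) (M : ℕ) (r : ℤ) (hM : 1 ≤ M) :
    ∃ n : ℕ, (M : ℤ) ∣ ((n.factorial : ℤ) + n + b) - r := by
  have hM' : (0 : ℤ) < M := by exact_mod_cast hM
  refine ⟨M + ((r - b) % (M : ℤ)).toNat, ?_⟩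
  have h0 : 0 ≤ (r - b) % (M : ℤ) := Int.emod_nonneg _ (by omega)
  have h1 : (M : ℤ) ∣ (((M + ((r - b) % (M : ℤ)).toNat).factorial : ℕ) : ℤ) := by
    exact_mod_cast Nat.dvd_factorial hM (Nat.le_add_right _ _)
  have h2 : (((M + ((r - b) % (M : ℤ)).toNat : ℕ)) : ℤ) = M + (r - b) % (M : ℤ) := by
    push_cast
    rw [Int.toNat_of_nonneg h0]
  have h3 : (M : ℤ) ∣ (r - b) % (M : ℤ) - (r - b) := by
    have h4 := Int.emod_add_mul_ediv (r - b) (M : ℤ)
    exact ⟨-((r - b) / (M : ℤ)), by linarith⟩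
  rw [h2]
  have h5 : (((M + ((r - b) % (M : ℤ)).toNat).factorial : ℕ) : ℤ) + (M + (r - b) % (M : ℤ)) + b - r
      = (((M + ((r - b) % (M : ℤ)).toNat).factorial : ℕ) : ℤ) + M +
        ((r - b) % (M : ℤ) - (r - b)) := by ring
  rw [h5]
  exact dvd_add (dvd_add h1 (dvd_refl _)) h3

end Pool.Agent.V11312
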