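import Mathlib
import Pool.Agent.V11312.Dens

set_option autoImplicit false

/-! A non-monotone upper quasi-density: exact unions of one arbitrary set (weighted by its covering
density) and finitely many affine images of special sets (weighted by prescribed weights). -/

namespace Pool.Agent.V11312

variable {ι : Type} (G : ι → Set ℤ) (w : ι → ℝ)

/-- union of a list of special sets -/
def V (L : List (ι × ℕ × ℤ)) : Set ℤ := {x | ∃ p ∈ L, x ∈ aff (p.2.1 : ℤ) p.2.2 (G p.1)}

/-- total weight of a list of special sets -/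
noncomputable def sw (L : List (ι × ℕ × ℤ)) : ℝ := (L.map (fun p => w p.1 / (p.2.1 : ℝ))).sum

/-- `X` is exactly the union of `R` and of the special sets in the list `L` -/
def Dec (X R : Set ℤ) (L : List (ι × ℕ × ℤ)) : Prop := (∀ p ∈ L, 1 ≤ p.2.1) ∧ X = R ∪ V G L

/-- the hull functional -/
noncomputable def hull (X : Set ℤ) : ℝ := sInf {t : ℝ | ∃ R L, Dec G X R L ∧ t = B R + sw w L}

theorem sw_nonneg (hw : ∀ i, 0 ≤ w i) (L : List (ι × ℕ × ℤ)) : 0 ≤ sw w L := by
  unfold sw
  apply List.sum_nonneg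
  intro t ht
  rw [List.mem_map] at ht
  obtain ⟨p, _, rfl⟩ := ht
  have := hw p.1
  positivity

theorem V_nil : V G [] = ∅ := by ext x; simp [V]

theorem V_append (L L' : List (ι × ℕ × ℤ)) : V G (L ++ L') = V G L ∪ V G L' := by
  ext x
  constructor
  · rintro ⟨p, hp, hx⟩
    rcases List.mem_append.mp hp with hp | hp
    · exact Or.inl ⟨p, hp, hx⟩
    · exact Or.inr ⟨p, hp, hx⟩
  · rintro (⟨p, hp, hx⟩ | ⟨p, hp, hx⟩)
    · exact ⟨p, List.mem_append_left _ hp, hx⟩
    · exact ⟨p, List.mem_append_right _ hp, hx⟩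

theorem sw_append (L L' : List (ι × ℕ × ℤ)) : sw w (L ++ L') = sw w L + sw w L' := by
  unfold sw
  rw [List.map_append, List.sum_append]

theorem dec_self (X : Set ℤ) : Dec G X X [] := ⟨by simp, by rw [V_nil, Set.union_empty]⟩

variable {w}

theorem hull_le (hw : ∀ i, 0 ≤ w i) {X R : Set ℤ} {L : List (ι × ℕ × ℤ)} (h : Dec G X R L) :
    hull G w X ≤ B R + sw w L :=
  csInf_le ⟨0, by
    rintro _ ⟨R, L, _, rfl⟩
    exact add_nonneg (B_nonneg R) (sw_nonneg w hw L)⟩ ⟨R, L, h, rfl⟩

theorem le_hull {X : Set ℤ} {s : ℝ} (h : ∀ R L, Dec G X R L → s ≤ B R + sw w L) :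
    s ≤ hull G w X :=
  le_csInf ⟨_, X, [], dec_self G X, rfl⟩ (by rintro _ ⟨R, L, hd, rfl⟩; exact h R L hd)

theorem exists_dec (X : Set ℤ) {ε : ℝ} (hε : 0 < ε) :
    ∃ R L, Dec G X R L ∧ B R + sw w L < hull G w X + ε := by
  obtain ⟨t, ⟨R, L, hd, rfl⟩, hlt⟩ := exists_lt_of_csInf_lt
    (s := {t : ℝ | ∃ R L, Dec G X R L ∧ t = B R + sw w L}) ⟨_, X, [], dec_self G X, rfl⟩
    (show sInf {t : ℝ | ∃ R L, Dec G X R L ∧ t = B R + sw w L} < hull G w X + ε by
      unfold hull; linarith)
  exact ⟨R, L, hd, hlt⟩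

theorem hull_le_B (hw : ∀ i, 0 ≤ w i) (X : Set ℤ) : hull G w X ≤ B X := by
  have := hull_le G hw (dec_self G X)
  simpa [sw] using this

theorem hull_le_one (hw : ∀ i, 0 ≤ w i) (X : Set ℤ) : hull G w X ≤ 1 :=
  (hull_le_B G hw X).trans (B_le_one X)

theorem hull_union (hw : ∀ i, 0 ≤ w i) (X Y : Set ℤ) :
    hull G w (X ∪ Y) ≤ hull G w X + hull G w Y := by
  apply le_of_forall_pos_le_add
  intro ε hε
  obtain ⟨R, L, hd, hlt⟩ := exists_dec G (w := w) X (half_pos hε)
  obtain ⟨R', L', hd', hlt'⟩ := exists_dec G (w := w) Y (half_pos hε)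
  have h : Dec G (X ∪ Y) (R ∪ R') (L ++ L') := by
    refine ⟨?_, ?_⟩
    · intro p hp
      rcases List.mem_append.mp hp with hp | hp
      · exact hd.1 p hp
      · exact hd'.1 p hp
    · rw [V_append, hd.2, hd'.2]
      ext x
      simp only [Set.mem_union]
      tauto
  have h1 := hull_le G hw h
  have h2 := B_union R R'
  rw [sw_append] at h1
  linarith

theorem D_V_le (hD : ∀ i, D (G i) ≤ w i) (L : List (ι × ℕ × ℤ)) (hL : ∀ p ∈ L, 1 ≤ p.2.1) :
    D (V G L) ≤ sw w L := by
  induction L with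
  | nil => rw [V_nil, D_empty]; simp [sw]
  | cons p L ih =>
    have h1 : V G (p :: L) = aff (p.2.1 : ℤ) p.2.2 (G p.1) ∪ V G L := by
      ext x
      constructor
      · rintro ⟨q, hq, hx⟩
        rcases List.mem_cons.mp hq with rfl | hq
        · exact Or.inl hx
        · exact Or.inr ⟨q, hq, hx⟩
      · rintro (hx | ⟨q, hq, hx⟩)
        · exact ⟨p, List.mem_cons_self, hx⟩
        · exact ⟨q, List.mem_cons_of_mem _ hq, hx⟩
    rw [h1]
    refine (D_union _ _).trans ?_
    have h2 := ih (fun q hq => hL q (List.mem_cons_of_mem _ hq))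
    have hp := hL p List.mem_cons_self
    have hp0 : (0 : ℝ) < p.2.1 := by exact_mod_cast hp
    rw [D_affine _ hp]
    have h3 : 1 / (p.2.1 : ℝ) * D (G p.1) ≤ w p.1 / p.2.1 := by
      rw [one_div, inv_mul_eq_div]
      exact div_le_div_of_nonneg_right (hD p.1) hp0.le
    unfold sw at h2 ⊢
    simp only [List.map_cons, List.sum_cons]
    linarith

theorem D_le_hull (hD : ∀ i, D (G i) ≤ w i) (X : Set ℤ) : D X ≤ hull G w X := by
  apply le_hull
  intro R L hd
  rw [hd.2]
  refine (D_union _ _).trans ?_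
  have := D_V_le G hD L hd.1
  have := D_le_B R
  linarith

theorem hull_full (hw : ∀ i, 0 ≤ w i) (hD : ∀ i, D (G i) ≤ w i) {X : Set ℤ}
    (h : ∀ x : ℤ, 1 ≤ x → x ∈ X) : hull G w X = 1 := by
  apply le_antisymm (hull_le_one G hw X)
  rw [← D_full h]
  exact D_le_hull G hD X

theorem hull_affine (hw : ∀ i, 0 ≤ w i) (hG : ∀ i, ∃ g : ℤ, g ∈ G i ∧ g + 1 ∈ G i) (X : Set ℤ)
    {k : ℕ} (hk : 1 ≤ k) (h : ℤ) : hull G w (aff k h X) = 1 / (k : ℝ) * hull G w X := by
  have hk0 : (0 : ℝ) < k := by exact_mod_cast hk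
  have hkZ : (1 : ℤ) ≤ k := by exact_mod_cast hk
  apply le_antisymm
  · have key : k * hull G w (aff k h X) ≤ hull G w X := by
      apply le_hull
      intro R L hd
      have hd' : Dec G (aff k h X) (aff k h R)
          (L.map (fun p => (p.1, k * p.2.1, (k : ℤ) * p.2.2 + h))) := by
        refine ⟨?_, ?_⟩
        · intro p hp
          obtain ⟨q, hq, rfl⟩ := List.mem_map.mp hp
          exact Nat.mul_pos hk (hd.1 q hq)
        · have hV : V G (L.map (fun p => (p.1, k * p.2.1, (k : ℤ) * p.2.2 + h))) =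
              aff k h (V G L) := by
            ext y
            constructor
            · rintro ⟨p, hp, hy⟩
              obtain ⟨q, hq, rfl⟩ := List.mem_map.mp hp
              have e : aff ((k * q.2.1 : ℕ) : ℤ) ((k : ℤ) * q.2.2 + h) (G q.1) =
                  aff k h (aff (q.2.1 : ℤ) q.2.2 (G q.1)) := by
                rw [aff_comp]; push_cast; rfl
              have hy' : y ∈ aff k h (aff (q.2.1 : ℤ) q.2.2 (G q.1)) := by rw [← e]; exact hy
              obtain ⟨x, hx, rfl⟩ := hy'
              exact ⟨x, ⟨q, hq, hx⟩, rfl⟩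
            · rintro ⟨x, ⟨q, hq, hx⟩, rfl⟩
              refine ⟨_, List.mem_map.mpr ⟨q, hq, rfl⟩, ?_⟩
              have e : aff ((k * q.2.1 : ℕ) : ℤ) ((k : ℤ) * q.2.2 + h) (G q.1) =
                  aff k h (aff (q.2.1 : ℤ) q.2.2 (G q.1)) := by
                rw [aff_comp]; push_cast; rfl
              show (k : ℤ) * x + h ∈ aff ((k * q.2.1 : ℕ) : ℤ) ((k : ℤ) * q.2.2 + h) (G q.1)
              rw [e]
              exact ⟨x, hx, rfl⟩
          rw [hV, hd.2, aff_union]
      have h1 := hull_le G hw hd'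
      rw [B_affine R hk h] at h1
      have h2 : sw w (L.map (fun p => (p.1, k * p.2.1, (k : ℤ) * p.2.2 + h))) = 1 / k * sw w L := by
        unfold sw
        rw [List.map_map, ← List.sum_map_mul_left]
        congr 1
        apply List.map_congr_left
        intro p _
        simp only [Function.comp]
        push_cast
        rw [div_mul_div_comm, one_mul]
      rw [h2] at h1
      calc (k : ℝ) * hull G w (aff k h X) ≤ k * (1 / k * B R + 1 / k * sw w L) :=
            mul_le_mul_of_nonneg_left h1 hk0.le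
        _ = B R + sw w L := by field_simp
    rw [one_div, le_inv_mul_iff₀ hk0]
    exact key
  · rw [one_div, inv_mul_le_iff₀ hk0]
    have h2 : hull G w X / k ≤ hull G w (aff k h X) := by
      apply le_hull
      intro R L hd
      rw [div_le_iff₀ hk0]
      -- pull back
      have hex : ∀ p ∈ L, ∃ q : ι × ℕ × ℤ, q.1 = p.1 ∧ 1 ≤ q.2.1 ∧ p.2.1 = k * q.2.1 ∧
          p.2.2 = (k : ℤ) * q.2.2 + h := by
        intro p hp
        have hsub : aff (p.2.1 : ℤ) p.2.2 (G p.1) ⊆ aff k h X := by
          intro y hy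
          rw [hd.2]
          exact Or.inr ⟨p, hp, hy⟩
        obtain ⟨g, hg, hg1⟩ := hG p.1
        obtain ⟨x, _, hx⟩ := hsub (show (p.2.1 : ℤ) * g + p.2.2 ∈ _ from ⟨g, hg, rfl⟩)
        obtain ⟨x', _, hx'⟩ := hsub (show (p.2.1 : ℤ) * (g + 1) + p.2.2 ∈ _ from ⟨g + 1, hg1, rfl⟩)
        have hx2 : (k : ℤ) * x + h = (p.2.1 : ℤ) * g + p.2.2 := hx
        have hx2' : (k : ℤ) * x' + h = (p.2.1 : ℤ) * (g + 1) + p.2.2 := hx'
        have h3 : (p.2.1 : ℤ) = k * (x' - x) := by linarith
        have h4 : 1 ≤ x' - x := by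
          have h5 : (1 : ℤ) ≤ p.2.1 := by exact_mod_cast hd.1 p hp
          rw [h3] at h5
          by_contra hcon
          push Not at hcon
          nlinarith
        refine ⟨(p.1, (x' - x).toNat, x - (x' - x) * g), rfl, ?_, ?_, ?_⟩
        · show 1 ≤ (x' - x).toNat
          omega
        · have : (p.2.1 : ℤ) = ((k * (x' - x).toNat : ℕ) : ℤ) := by
            rw [h3, Nat.cast_mul, Int.toNat_of_nonneg (by omega)]
          exact_mod_cast this
        · show p.2.2 = (k : ℤ) * (x - (x' - x) * g) + h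
          rw [h3] at hx2
          linarith
      choose! q hq1 hq2 hq3 hq4 using hex
      have hinj := aff_inj (k := (k : ℤ)) hkZ h
      have hpull : ∀ p ∈ L, aff (p.2.1 : ℤ) p.2.2 (G p.1) =
          aff k h (aff ((q p).2.1 : ℤ) (q p).2.2 (G (q p).1)) := by
        intro p hp
        rw [aff_comp, hq1 p hp, hq3 p hp, hq4 p hp]
        push_cast
        rfl
      have hd' : Dec G X {x | (k : ℤ) * x + h ∈ R} (L.map q) := by
        refine ⟨?_, ?_⟩
        · intro p hp
          obtain ⟨r, hr, rfl⟩ := List.mem_map.mp hp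
          exact hq2 r hr
        · ext x
          have h5 : x ∈ X ↔ (k : ℤ) * x + h ∈ aff k h X := by
            constructor
            · intro hx; exact ⟨x, hx, rfl⟩
            · rintro ⟨x', hx', he⟩
              have := hinj he
              rwa [← this]
          rw [h5, hd.2]
          constructor
          · rintro (hx | ⟨p, hp, hx⟩)
            · exact Or.inl hx
            · right
              rw [hpull p hp] at hx
              obtain ⟨x', hx', he⟩ := hx
              have h6 := hinj he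
              refine ⟨q p, List.mem_map.mpr ⟨p, hp, rfl⟩, ?_⟩
              rw [← h6]; exact hx'
          · rintro (hx | ⟨p, hp, hx⟩)
            · exact Or.inl hx
            · right
              obtain ⟨r, hr, rfl⟩ := List.mem_map.mp hp
              refine ⟨r, hr, ?_⟩
              rw [hpull r hr]
              exact ⟨x, hx, rfl⟩
      have h1 := hull_le G hw hd'
      have hR : aff k h {x | (k : ℤ) * x + h ∈ R} = R := by
        ext y
        constructor
        · rintro ⟨x, hx, rfl⟩; exact hx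
        · intro hy
          have : y ∈ aff k h X := by rw [hd.2]; exact Or.inl hy
          obtain ⟨x, _, rfl⟩ := this
          exact ⟨x, hy, rfl⟩
      have h6 : B R = 1 / k * B {x | (k : ℤ) * x + h ∈ R} := by
        conv_lhs => rw [← hR]
        exact B_affine _ hk h
      have h7 : sw w (L.map q) = k * sw w L := by
        unfold sw
        rw [List.map_map, ← List.sum_map_mul_left]
        congr 1
        apply List.map_congr_left
        intro p hp
        simp only [Function.comp]
        rw [hq1 p hp, hq3 p hp]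
        push_cast
        have : (0 : ℝ) < (q p).2.1 := by exact_mod_cast hq2 p hp
        field_simp
      rw [h7] at h1
      have h8 : (B R + sw w L) * k = B {x | (k : ℤ) * x + h ∈ R} + k * sw w L := by
        rw [h6]; field_simp
      rw [h8]
      exact h1
    rw [div_le_iff₀ hk0] at h2
    linarith

/-- if `X` contains no special set then the hull value is the covering density -/
theorem hull_eq_B (hw : ∀ i, 0 ≤ w i) {X : Set ℤ}
    (hX : ∀ (i : ι) (a : ℕ) (c : ℤ), 1 ≤ a → ¬ aff (a : ℤ) c (G i) ⊆ X) :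
    hull G w X = B X := by
  apply le_antisymm (hull_le_B G hw X)
  apply le_hull
  intro R L hd
  rcases L with _ | ⟨p, L⟩
  · have h1 : X = R := by rw [hd.2, V_nil, Set.union_empty]
    rw [h1]
    simp [sw]
  · exfalso
    refine hX p.1 p.2.1 p.2.2 (hd.1 p List.mem_cons_self) ?_
    intro x hx
    rw [hd.2]
    exact Or.inr ⟨p, List.mem_cons_self, hx⟩

theorem hull_special (hw : ∀ i, 0 ≤ w i) (i : ι) (c : ℤ) : hull G w (aff 1 c (G i)) ≤ w i := by
  have hd : Dec G (aff 1 c (G i)) ∅ [(i, 1, c)] := by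
    refine ⟨by simp, ?_⟩
    rw [Set.empty_union]
    ext x
    constructor
    · intro hx
      exact ⟨(i, 1, c), by simp, by simpa using hx⟩
    · rintro ⟨p, hp, hx⟩
      rw [List.mem_singleton] at hp
      subst hp
      simpa using hx
  have h1 := hull_le G hw hd
  have h2 : B ∅ = 0 := by
    apply le_antisymm _ (B_nonneg _)
    have : IsCover ∅ [] := ⟨by simp, Set.empty_subset _⟩
    have := B_le this
    simpa [wt] using this
  rw [h2] at h1
  simpa [sw] using h1

end Pool.Agent.V11312
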