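import Mathlib
import Pool.Agent.V11312.Hull

set_option autoImplicit false

/-! The sets of integers whose integer square root has a given parity. -/

namespace Pool.Agent.V11312

/-- integers `x` with `⌊√x⌋ ≡ ε (mod 2)` (negative integers are treated as `0`) -/
def Es (ε : ℕ) : Set ℤ := {x : ℤ | Nat.sqrt x.toNat % 2 = ε}

theorem AP_inter_Ico (a : ℤ) {m : ℕ} (hm : 1 ≤ m) (u v : ℤ) (huv : u ≤ v) :
    ((AP a m ∩ Set.Ico u v).ncard : ℝ) ≤ ((v - u : ℤ) : ℝ) / m + 1 := by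
  have hm0 : (0 : ℝ) < m := by exact_mod_cast hm
  set lo : ℤ := ⌈((u - a : ℤ) : ℝ) / m⌉ with hlo
  set hi : ℤ := ⌈((v - a : ℤ) : ℝ) / m⌉ with hhi
  have hsub : AP a m ∩ Set.Ico u v ⊆ (fun q : ℤ => (m : ℤ) * q + a) '' (Finset.Ico lo hi : Set ℤ) := by
    rintro x ⟨⟨q, hq⟩, hx1, hx2⟩
    refine ⟨q, ?_, by show (m : ℤ) * q + a = x; linarith⟩
    rw [Finset.mem_coe, Finset.mem_Ico]
    constructor
    · rw [hlo, Int.ceil_le, div_le_iff₀ hm0]
      have : u - a ≤ q * m := by linarith [mul_comm (m : ℤ) q]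
      exact_mod_cast this
    · rw [hhi, Int.lt_ceil, lt_div_iff₀ hm0]
      have : q * m < v - a := by linarith [mul_comm (m : ℤ) q]
      exact_mod_cast this
  have h1 : (AP a m ∩ Set.Ico u v).ncard ≤ (hi - lo).toNat := by
    refine (Set.ncard_le_ncard hsub ((Finset.finite_toSet _).image _)).trans ?_
    refine (Set.ncard_image_le (Finset.finite_toSet _)).trans ?_
    rw [Set.ncard_coe_finset, Int.card_Ico]
  have hle : ((u - a : ℤ) : ℝ) / m ≤ ((v - a : ℤ) : ℝ) / m :=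
    div_le_div_of_nonneg_right (by exact_mod_cast (by omega : u - a ≤ v - a)) hm0.le
  have hlohi : lo ≤ hi := Int.ceil_le_ceil hle
  have h2 : (((hi - lo).toNat : ℕ) : ℝ) = (hi : ℝ) - lo := by
    have : (((hi - lo).toNat : ℕ) : ℤ) = hi - lo := Int.toNat_of_nonneg (by omega)
    have h3 : ((((hi - lo).toNat : ℕ) : ℤ) : ℝ) = ((hi - lo : ℤ) : ℝ) := by rw [this]
    push_cast at h3
    exact_mod_cast h3
  have h3 : (hi : ℝ) < ((v - a : ℤ) : ℝ) / m + 1 := Int.ceil_lt_add_one _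
  have h4 : ((u - a : ℤ) : ℝ) / m ≤ lo := Int.le_ceil _
  have h5 : ((AP a m ∩ Set.Ico u v).ncard : ℝ) ≤ (((hi - lo).toNat : ℕ) : ℝ) := by
    exact_mod_cast h1
  have h6 : ((v - u : ℤ) : ℝ) / m = ((v - a : ℤ) : ℝ) / m - ((u - a : ℤ) : ℝ) / m := by
    push_cast; ring
  linarith

theorem cnt_Es (ε : ℕ) (hε : ε ≤ 1) (a : ℤ) {m : ℕ} (hm : 1 ≤ m) (n J : ℕ)
    (hJ : n < (2 * J + ε) ^ 2) :
    (cnt (Es ε ∩ AP a m) n : ℝ) ≤ (2 * (J : ℝ) ^ 2 + J) / m + J := by
  have hm0 : (0 : ℝ) < m := by exact_mod_cast hm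
  have hsub : (Es ε ∩ AP a m) ∩ Set.Icc 1 (n : ℤ) ⊆
      ⋃ j ∈ Finset.range J, (AP a m ∩ Set.Ico (((2 * j + ε) ^ 2 : ℕ) : ℤ)
        (((2 * j + ε + 1) ^ 2 : ℕ) : ℤ)) := by
    rintro x ⟨⟨hxE, hxA⟩, hx1, hx2⟩
    have hxE' : Nat.sqrt x.toNat % 2 = ε := hxE
    set q := Nat.sqrt x.toNat with hq
    have hq1 : q * q ≤ x.toNat := Nat.sqrt_le _
    have hq2 : x.toNat < (q + 1) * (q + 1) := Nat.lt_succ_sqrt _
    have hxn : x.toNat ≤ n := by omega
    have hqJ : q < 2 * J + ε := by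
      by_contra hcon
      push Not at hcon
      have : (2 * J + ε) ^ 2 ≤ q ^ 2 := Nat.pow_le_pow_left hcon 2
      have h2 : q ^ 2 = q * q := sq q
      omega
    have hqj : q = 2 * (q / 2) + ε := by omega
    rw [Set.mem_iUnion₂]
    refine ⟨q / 2, ?_, hxA, ?_, ?_⟩
    · rw [Finset.mem_range]; omega
    · rw [← hqj]
      have h3 : ((q * q : ℕ) : ℤ) ≤ x := by omega
      rw [sq]; exact h3
    · rw [← hqj]
      have h3 : x < (((q + 1) * (q + 1) : ℕ) : ℤ) := by omega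
      rw [sq]; exact h3
  have h1 : cnt (Es ε ∩ AP a m) n ≤ ∑ j ∈ Finset.range J,
      (AP a m ∩ Set.Ico (((2 * j + ε) ^ 2 : ℕ) : ℤ) (((2 * j + ε + 1) ^ 2 : ℕ) : ℤ)).ncard := by
    unfold cnt
    refine (Set.ncard_le_ncard hsub ?_).trans ?_
    · refine Set.Finite.biUnion (Finset.finite_toSet _) ?_
      intro j _
      exact (Set.finite_Ico _ _).subset Set.inter_subset_right
    · exact Finset.set_ncard_biUnion_le _ _
  have h2 : ∀ j ∈ Finset.range J,
      ((AP a m ∩ Set.Ico (((2 * j + ε) ^ 2 : ℕ) : ℤ) (((2 * j + ε + 1) ^ 2 : ℕ) : ℤ)).ncard : ℝ) ≤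
        (4 * (j : ℝ) + 3) / m + 1 := by
    intro j _
    refine (AP_inter_Ico a hm _ _ ?_).trans ?_
    · exact_mod_cast Nat.pow_le_pow_left (by omega) 2
    · have h3 : (((((2 * j + ε + 1) ^ 2 : ℕ) : ℤ) - (((2 * j + ε) ^ 2 : ℕ) : ℤ) : ℤ) : ℝ) ≤
          4 * (j : ℝ) + 3 := by
        have : ((((2 * j + ε + 1) ^ 2 : ℕ) : ℤ) - (((2 * j + ε) ^ 2 : ℕ) : ℤ) : ℤ) ≤ 4 * j + 3 := by
          push_cast
          have : (ε : ℤ) ≤ 1 := by exact_mod_cast hε
          nlinarith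
        exact_mod_cast this
      have := div_le_div_of_nonneg_right h3 hm0.le
      linarith
  have h3 : (cnt (Es ε ∩ AP a m) n : ℝ) ≤ ∑ j ∈ Finset.range J, ((4 * (j : ℝ) + 3) / m + 1) := by
    refine le_trans ?_ (Finset.sum_le_sum h2)
    exact_mod_cast h1
  have h4 : ∀ J : ℕ, ∑ j ∈ Finset.range J, ((4 * (j : ℝ) + 3) / m + 1) =
      (2 * (J : ℝ) ^ 2 + J) / m + J := by
    intro J
    induction J with
    | zero => simp
    | succ J ih =>
      rw [Finset.sum_range_succ, ih]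
      push_cast
      field_simp
      ring
  rw [h4] at h3
  exact h3

theorem D_Es (ε : ℕ) (hε : ε ≤ 1) (a : ℤ) {m : ℕ} (hm : 1 ≤ m) :
    D (Es ε ∩ AP a m) ≤ 1 / (2 * (m : ℝ)) := by
  have hm0 : (0 : ℝ) < m := by exact_mod_cast hm
  have hm1 : (1 : ℝ) ≤ m := by exact_mod_cast hm
  apply le_of_forall_pos_le_add
  intro t ht
  apply D_le
  refine ⟨by positivity, 9 / (4 * t) * 1 + 4, fun n => ?_⟩
  set q := Nat.sqrt n with hq
  set J := q / 2 + 1 with hJdef
  have hJ : n < (2 * J + ε) ^ 2 := by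
    have h1 : n < (q + 1) * (q + 1) := Nat.lt_succ_sqrt _
    have h2 : (q + 1) * (q + 1) ≤ (2 * J + ε) * (2 * J + ε) :=
      Nat.mul_le_mul (by omega) (by omega)
    rw [sq]; omega
  have h1 := cnt_Es ε hε a hm n J hJ
  have hJq : (J : ℝ) ≤ q / 2 + 1 := by
    rw [hJdef]
    push_cast
    have := Nat.cast_div_le (α := ℝ) (m := q) (n := 2)
    push_cast at this
    linarith
  have hq2 : (q : ℝ) ^ 2 ≤ n := by
    have : q * q ≤ n := Nat.sqrt_le n
    rw [sq]; exact_mod_cast this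
  have hq0 : (0 : ℝ) ≤ q := Nat.cast_nonneg _
  have hJ0 : (0 : ℝ) ≤ J := Nat.cast_nonneg _
  have h2 : 2 * (J : ℝ) ^ 2 + J ≤ q ^ 2 / 2 + 5 / 2 * q + 3 := by nlinarith
  have h3 : (2 * (J : ℝ) ^ 2 + J) / m ≤ (n / 2) / m + (5 / 2 * q + 3) := by
    rw [div_le_iff₀ hm0]
    have h4 : ((n : ℝ) / 2 / m + (5 / 2 * q + 3)) * m = n / 2 + (5 / 2 * q + 3) * m := by
      field_simp
    rw [h4]
    have h5 : (5 / 2 * (q : ℝ) + 3) * 1 ≤ (5 / 2 * q + 3) * m :=
      mul_le_mul_of_nonneg_left hm1 (by positivity)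
    linarith
  have h4 : (n : ℝ) / 2 / m = 1 / (2 * m) * n := by field_simp
  have h5 : 3 * (q : ℝ) ≤ t * n + 9 / (4 * t) := by
    have h6 : 0 ≤ (2 * t * q - 3) ^ 2 := sq_nonneg _
    have h7 : 3 * (q : ℝ) * (4 * t) ≤ (t * n + 9 / (4 * t)) * (4 * t) := by
      have h8 : (t * n + 9 / (4 * t)) * (4 * t) = 4 * t ^ 2 * n + 9 := by field_simp
      rw [h8]
      nlinarith [mul_le_mul_of_nonneg_left hq2 (sq_nonneg t)]
    exact le_of_mul_le_mul_right h7 (by positivity)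
  rw [h4] at h3
  nlinarith

/-- the value of the integer square root in a block -/
theorem sqrt_block {s x : ℕ} (h1 : s * s ≤ x) (h2 : x < (s + 1) * (s + 1)) : Nat.sqrt x = s := by
  apply le_antisymm
  · rw [← Nat.lt_succ_iff, Nat.sqrt_lt]; exact h2
  · rw [Nat.le_sqrt]; exact h1

theorem mem_Es_of_block {ε : ℕ} {s : ℕ} (hs : s % 2 = ε) {x : ℤ} (h1 : (s : ℤ) * s ≤ x)
    (h2 : x < ((s : ℤ) + 1) * (s + 1)) : x ∈ Es ε := by
  show Nat.sqrt x.toNat % 2 = ε
  have h3 : 0 ≤ (s : ℤ) * s := by positivity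
  obtain ⟨y, rfl⟩ : ∃ y : ℕ, x = (y : ℤ) := ⟨x.toNat, by omega⟩
  rw [Int.toNat_natCast, sqrt_block (s := s) (by exact_mod_cast h1) (by exact_mod_cast h2)]
  exact hs

theorem parity_ne {ε : ℕ} {s : ℕ} (hs : s % 2 ≠ ε) {x : ℤ} (h1 : (s : ℤ) * s ≤ x)
    (h2 : x < ((s : ℤ) + 1) * (s + 1)) : x ∉ Es ε := by
  intro hx
  have h4 := mem_Es_of_block (ε := s % 2) rfl h1 h2
  have h5 : Nat.sqrt x.toNat % 2 = ε := hx
  have h6 : Nat.sqrt x.toNat % 2 = s % 2 := h4
  omega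

/-- the only affine image of a parity set contained in `Es 0` is `Es 0` itself -/
theorem affine_in_Es {ε : ℕ} (hε : ε ≤ 1) {X : Set ℤ} (hX : ∀ x : ℤ, 1 ≤ x → x ∈ Es ε → x ∈ X)
    {a : ℕ} (ha : 1 ≤ a) {c : ℤ} (hsub : aff (a : ℤ) c X ⊆ Es 0) : ε = 0 ∧ a = 1 ∧ c = 0 := by
  -- a large block
  have hblock : ∀ (s : ℕ) (x : ℤ), 1 ≤ s → s % 2 = ε → (s : ℤ) * s ≤ x →
      x < ((s : ℤ) + 1) * (s + 1) → (a : ℤ) * x + c ∈ Es 0 := by
    intro s x hs1 hs2 h1 h2
    apply hsub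
    refine ⟨x, hX x ?_ (mem_Es_of_block hs2 h1 h2), rfl⟩
    have : (1 : ℤ) * 1 ≤ s * s := mul_le_mul (by exact_mod_cast hs1) (by exact_mod_cast hs1)
      (by norm_num) (by positivity)
    linarith
  rcases Nat.lt_or_ge 1 a with ha2 | ha1
  · exfalso
    -- choose the block
    set s : ℕ := 2 * (c.natAbs + a + 1) + ε with hs
    have hs1 : 1 ≤ s := by omega
    have hsε : s % 2 = ε := by omega
    have hsc : (c.natAbs : ℤ) + a + 1 ≤ s := by omega
    have hcabs : -(c.natAbs : ℤ) ≤ c ∧ c ≤ (c.natAbs : ℤ) := by omega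
    have hs0 : (0 : ℤ) ≤ s := by positivity
    have haZ : (2 : ℤ) ≤ a := by exact_mod_cast ha2
    have hss : (s : ℤ) ≤ s * s := by nlinarith
    have hpos : (s : ℤ) * s ≤ (a : ℤ) * (s * s) + c := by nlinarith
    set N : ℕ := ((a : ℤ) * (s * s) + c).toNat with hN
    have hNz : (N : ℤ) = (a : ℤ) * (s * s) + c := Int.toNat_of_nonneg (by nlinarith)
    set q := Nat.sqrt N with hq
    have hq1 : (q : ℤ) * q ≤ (a : ℤ) * (s * s) + c := by
      rw [← hNz]; exact_mod_cast Nat.sqrt_le N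
    have hq2 : (a : ℤ) * (s * s) + c < ((q : ℤ) + 1) * (q + 1) := by
      rw [← hNz]; exact_mod_cast Nat.lt_succ_sqrt N
    have hqs : (s : ℤ) ≤ q := by
      have : s ≤ q := by
        rw [hq, Nat.le_sqrt]
        have : ((s * s : ℕ) : ℤ) ≤ N := by rw [hNz]; push_cast; exact hpos
        exact_mod_cast this
      exact_mod_cast this
    have hqe : q % 2 = 0 := by
      have h0 := hblock s (s * s) hs1 hsε le_rfl (by nlinarith)
      by_contra hne
      exact parity_ne (ε := 0) hne hq1 hq2 h0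
    have hind : ∀ t : ℕ, t ≤ 2 * s → (a : ℤ) * (s * s + t) + c < ((q : ℤ) + 1) * (q + 1) := by
      intro t
      induction t with
      | zero => intro _; simpa using hq2
      | succ t ih =>
        intro ht
        have h1 := ih (by omega)
        by_contra hcon
        push Not at hcon
        have h2 : (a : ℤ) * (s * s + ((t + 1 : ℕ) : ℤ)) + c < ((q : ℤ) + 1 + 1) * (q + 1 + 1) := by
          push_cast
          nlinarith
        have ht0 : (0 : ℤ) ≤ ((t + 1 : ℕ) : ℤ) := by positivity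
        have ht1 : ((t + 1 : ℕ) : ℤ) ≤ 2 * s := by exact_mod_cast ht
        have h3 := hblock s (s * s + ((t + 1 : ℕ) : ℤ)) hs1 hsε (by linarith) (by nlinarith)
        exact parity_ne (ε := 0) (s := q + 1) (by omega) (by push_cast; exact hcon)
          (by push_cast; exact h2) h3
    have hfin := hind (2 * s) le_rfl
    push_cast at hfin
    -- `a s ≤ q`
    have h1 : (a : ℤ) * s ≤ q := by nlinarith
    have h2 : ((a : ℤ) * s) * (a * s) ≤ q * q := mul_le_mul h1 h1 (by positivity) (by positivity)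
    nlinarith
  · have ha' : a = 1 := by omega
    subst ha'
    have hcabs : -(c.natAbs : ℤ) ≤ c ∧ c ≤ (c.natAbs : ℤ) := by omega
    set s : ℕ := 2 * (c.natAbs + 1) + ε with hs
    have hs1 : 1 ≤ s := by omega
    have hsε : s % 2 = ε := by omega
    have hsc : 2 * (c.natAbs : ℤ) + 2 ≤ s := by omega
    rcases Nat.lt_or_ge 0 ε with hε1 | hε0
    · exfalso
      have h1 := hblock s (s * s + s) hs1 hsε (by omega) (by nlinarith)
      refine parity_ne (ε := 0) (s := s) (by omega) ?_ ?_ h1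
      · push_cast; nlinarith
      · push_cast; nlinarith
    · refine ⟨by omega, rfl, ?_⟩
      by_contra hc
      rcases lt_or_gt_of_ne hc with hneg | hpos
      · have h1 := hblock s (s * s) hs1 hsε le_rfl (by nlinarith)
        refine parity_ne (ε := 0) (s := s - 1) (by omega) ?_ ?_ h1
        · have : ((s - 1 : ℕ) : ℤ) = s - 1 := by push_cast [hs1]; ring
          rw [this]; push_cast; nlinarith
        · have : ((s - 1 : ℕ) : ℤ) = s - 1 := by push_cast [hs1]; ring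
          rw [this]; push_cast; nlinarith
      · have h1 := hblock s (s * s + 2 * s) hs1 hsε (by omega) (by nlinarith)
        refine parity_ne (ε := 0) (s := s + 1) (by omega) ?_ ?_ h1
        · push_cast; nlinarith
        · push_cast; nlinarith

end Pool.Agent.V11312
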