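import Mathlib

set_option autoImplicit false

open PowerSeries Filter Topology
open scoped PowerSeries.WithPiTopology

namespace Pool.Agent.V11312.PartGF

open Classical in
/-- character used in the generating function -/
noncomputable def fS (S : Set ℕ) (z : ℂ) (i j : ℕ) : ℂ := if i ∈ S then z ^ j else 0

open Classical in
/-- `∑ z ^ (number of parts)` over the partitions of `n` with all parts in `S` -/
noncomputable def cz (S : Set ℕ) (z : ℂ) (n : ℕ) : ℂ :=
  ∑ p : n.Partition, if (∀ i ∈ p.parts, i ∈ S) then z ^ p.parts.card else 0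

theorem coeff_gen (S : Set ℕ) (z : ℂ) (n : ℕ) :
    (Nat.Partition.genFun (fS S z)).coeff n = cz S z n := by
  rw [Nat.Partition.coeff_genFun]
  unfold cz
  apply Finset.sum_congr rfl
  intro p _
  rw [Finsupp.prod, Multiset.toFinsupp_support]
  by_cases h : ∀ i ∈ p.parts, i ∈ S
  · rw [if_pos h]
    have h1 : ∀ i ∈ p.parts.toFinset, fS S z i (Multiset.toFinsupp p.parts i) =
        z ^ (p.parts.count i) := by
      intro i hi
      unfold fS
      rw [if_pos (h i (Multiset.mem_toFinset.mp hi)), Multiset.toFinsupp_apply]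
    rw [Finset.prod_congr rfl h1, Finset.prod_pow_eq_pow_sum, Multiset.toFinset_sum_count_eq]
  · rw [if_neg h]
    push Not at h
    obtain ⟨i, hi, hiS⟩ := h
    apply Finset.prod_eq_zero (Multiset.mem_toFinset.mpr hi)
    unfold fS
    rw [if_neg hiS]

/-- the factors of the product -/
noncomputable def fac (S : Set ℕ) (z : ℂ) (i : ℕ) : PowerSeries ℂ :=
  1 + ∑' j, fS S z (i + 1) (j + 1) • (X : PowerSeries ℂ) ^ ((i + 1) * (j + 1))

theorem fac_not_mem {S : Set ℕ} {z : ℂ} {i : ℕ} (h : i + 1 ∉ S) : fac S z i = 1 := by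
  unfold fac
  have : (fun j => fS S z (i + 1) (j + 1) • (X : PowerSeries ℂ) ^ ((i + 1) * (j + 1))) =
      fun _ => 0 := by
    funext j
    unfold fS
    rw [if_neg h, zero_smul]
  rw [this, tsum_zero, add_zero]

theorem coeff_fac {S : Set ℕ} {z : ℂ} {i : ℕ} (h : i + 1 ∈ S) (n : ℕ) :
    (fac S z i).coeff n = if (i + 1) ∣ n then z ^ (n / (i + 1)) else 0 := by
  unfold fac
  rw [map_add, (Nat.Partition.summable_genFun_term (fS S z) i).map_tsum _
    (WithPiTopology.continuous_coeff _ _)]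
  have h1 : ∀ j, (PowerSeries.coeff n) (fS S z (i + 1) (j + 1) •
      (X : PowerSeries ℂ) ^ ((i + 1) * (j + 1))) =
      if n = (i + 1) * (j + 1) then z ^ (j + 1) else 0 := by
    intro j
    rw [map_smul, coeff_X_pow]
    unfold fS
    rw [if_pos h]
    split_ifs <;> simp
  simp_rw [h1]
  rcases Nat.eq_zero_or_pos n with rfl | hn
  · have h2 : ∀ j : ℕ, (if 0 = (i + 1) * (j + 1) then z ^ (j + 1) else (0 : ℂ)) = 0 := by
      intro j
      rw [if_neg]
      have : 0 < (i + 1) * (j + 1) := by positivity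
      omega
    rw [tsum_congr h2, tsum_zero]
    simp
  · rw [coeff_one, if_neg hn.ne', zero_add]
    by_cases hd : (i + 1) ∣ n
    · obtain ⟨k, rfl⟩ := hd
      rw [if_pos (dvd_mul_right _ _), Nat.mul_div_cancel_left _ (by omega)]
      have hk : k ≠ 0 := by rintro rfl; simp at hn
      rw [tsum_eq_single (k - 1)]
      · rw [if_pos (by rw [Nat.sub_add_cancel (by omega)]), Nat.sub_add_cancel (by omega)]
      · intro j hj
        rw [if_neg]
        intro h3
        have := Nat.eq_of_mul_eq_mul_left (by omega : 0 < i + 1) h3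
        omega
    · rw [if_neg hd]
      have h2 : ∀ j : ℕ, (if n = (i + 1) * (j + 1) then z ^ (j + 1) else (0 : ℂ)) = 0 := by
        intro j
        rw [if_neg]
        rintro rfl
        exact hd (dvd_mul_right _ _)
      rw [tsum_congr h2, tsum_zero]

/-- truncation of `S` -/
def tr (S : Set ℕ) (N : ℕ) : Set ℕ := {i | i ∈ S ∧ i ≤ N}

theorem gen_tr (S : Set ℕ) (z : ℂ) (N : ℕ) :
    Nat.Partition.genFun (fS (tr S N) z) = ∏ i ∈ Finset.range N, fac (tr S N) z i := by
  have h1 := Nat.Partition.hasProd_genFun (fS (tr S N) z)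
  have h2 : HasProd (fun i => fac (tr S N) z i) (∏ i ∈ Finset.range N, fac (tr S N) z i) := by
    apply hasProd_prod_of_ne_finset_one
    intro i hi
    apply fac_not_mem
    rintro ⟨_, h3⟩
    apply hi
    rw [Finset.mem_range]; omega
  exact h1.unique h2

/-! ### Evaluation -/

def Ev (A : PowerSeries ℂ) (q v : ℂ) : Prop :=
  Summable (fun n => ‖A.coeff n * q ^ n‖) ∧ ∑' n, A.coeff n * q ^ n = v

theorem Ev.mul {A B : PowerSeries ℂ} {q v w : ℂ} (hA : Ev A q v) (hB : Ev B q w) :
    Ev (A * B) q (v * w) := by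
  obtain ⟨f, hf⟩ : ∃ f : ℕ → ℂ, f = fun n => A.coeff n * q ^ n := ⟨_, rfl⟩
  obtain ⟨g, hg⟩ : ∃ g : ℕ → ℂ, g = fun n => B.coeff n * q ^ n := ⟨_, rfl⟩
  have hf1 : Summable (fun n => ‖f n‖) := by rw [hf]; exact hA.1
  have hg1 : Summable (fun n => ‖g n‖) := by rw [hg]; exact hB.1
  have hf2 : ∑' n, f n = v := by rw [hf]; exact hA.2
  have hg2 : ∑' n, g n = w := by rw [hg]; exact hB.2
  have key : ∀ n, (A * B).coeff n * q ^ n =
      ∑ kl ∈ Finset.HasAntidiagonal.antidiagonal n, f kl.1 * g kl.2 := by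
    intro n
    rw [coeff_mul, Finset.sum_mul]
    apply Finset.sum_congr rfl
    intro kl hkl
    have : kl.1 + kl.2 = n := Finset.HasAntidiagonal.mem_antidiagonal.mp hkl
    rw [hf, hg]
    simp only
    rw [← this, pow_add]; ring
  refine ⟨?_, ?_⟩
  · have h1 := summable_norm_sum_mul_antidiagonal_of_summable_norm hf1 hg1
    exact h1.congr (fun n => by rw [key n])
  · have h1 := tsum_mul_tsum_eq_tsum_sum_antidiagonal_of_summable_norm hf1 hg1
    rw [tsum_congr key, ← h1, hf2, hg2]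

theorem Ev.one (q : ℂ) : Ev 1 q 1 := by
  have h : ∀ n : ℕ, n ≠ 0 → (1 : PowerSeries ℂ).coeff n * q ^ n = 0 := by
    intro n hn
    rw [coeff_one, if_neg hn, zero_mul]
  refine ⟨?_, ?_⟩
  · apply summable_of_ne_finset_zero (s := {0})
    intro n hn
    rw [h n (by simpa using hn), norm_zero]
  · rw [tsum_eq_single 0 h]; simp

theorem Ev.prod {ι : Type} (s : Finset ι) (A : ι → PowerSeries ℂ) (v : ι → ℂ) {q : ℂ}
    (h : ∀ i ∈ s, Ev (A i) q (v i)) : Ev (∏ i ∈ s, A i) q (∏ i ∈ s, v i) := by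
  classical
  induction s using Finset.induction_on with
  | empty => simpa using Ev.one q
  | insert i s hi ih =>
    rw [Finset.prod_insert hi, Finset.prod_insert hi]
    exact (h i (Finset.mem_insert_self _ _)).mul
      (ih (fun j hj => h j (Finset.mem_insert_of_mem hj)))

theorem ev_fac {S : Set ℕ} {z q : ℂ} (hz : ‖z‖ ≤ 1) (hq : ‖q‖ < 1) {i : ℕ} (h : i + 1 ∈ S) :
    Ev (fac S z i) q (1 - z * q ^ (i + 1))⁻¹ := by
  have hlt : ‖z * q ^ (i + 1)‖ < 1 := by
    rw [norm_mul, norm_pow]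
    calc ‖z‖ * ‖q‖ ^ (i + 1) ≤ 1 * ‖q‖ ^ (i + 1) :=
          mul_le_mul_of_nonneg_right hz (by positivity)
      _ < 1 := by rw [one_mul]; exact pow_lt_one₀ (norm_nonneg _) hq (by omega)
  have hinj : Function.Injective (fun k : ℕ => (i + 1) * k) := by
    intro a b hab
    exact Nat.eq_of_mul_eq_mul_left (by omega : 0 < i + 1) hab
  have hout : ∀ n ∉ Set.range (fun k : ℕ => (i + 1) * k), (fac S z i).coeff n * q ^ n = 0 := by
    intro n hn
    rw [coeff_fac h, if_neg, zero_mul]
    rintro ⟨k, hk⟩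
    exact hn ⟨k, hk.symm⟩
  have hcomp : (fun n => (fac S z i).coeff n * q ^ n) ∘ (fun k : ℕ => (i + 1) * k) =
      fun k => (z * q ^ (i + 1)) ^ k := by
    funext k
    simp only [Function.comp_apply]
    rw [coeff_fac h, if_pos (dvd_mul_right _ _), Nat.mul_div_cancel_left _ (by omega), mul_pow,
      pow_mul]
  have hsum : HasSum (fun n => (fac S z i).coeff n * q ^ n) (1 - z * q ^ (i + 1))⁻¹ := by
    rw [← hinj.hasSum_iff hout, hcomp]
    exact hasSum_geometric_of_norm_lt_one hlt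
  refine ⟨?_, hsum.tsum_eq⟩
  have h2 : Summable ((fun n => ‖(fac S z i).coeff n * q ^ n‖) ∘ (fun k : ℕ => (i + 1) * k)) := by
    have : (fun n => ‖(fac S z i).coeff n * q ^ n‖) ∘ (fun k : ℕ => (i + 1) * k) =
        fun k => ‖z * q ^ (i + 1)‖ ^ k := by
      funext k
      have := congrFun hcomp k
      simp only [Function.comp_apply] at this ⊢
      rw [this, norm_pow]
    rw [this]
    exact summable_geometric_of_lt_one (norm_nonneg _) hlt
  exact (hinj.summable_iff (fun n hn => by rw [hout n hn, norm_zero])).mp h2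

open Classical in
/-- value of a factor -/
noncomputable def fz (S : Set ℕ) (z q : ℂ) (i : ℕ) : ℂ :=
  if i + 1 ∈ S then (1 - z * q ^ (i + 1))⁻¹ else 1

theorem ev_gen (S : Set ℕ) {z q : ℂ} (hz : ‖z‖ ≤ 1) (hq : ‖q‖ < 1) (N : ℕ) :
    Ev (Nat.Partition.genFun (fS (tr S N) z)) q (∏ i ∈ Finset.range N, fz S z q i) := by
  rw [gen_tr]
  apply Ev.prod
  intro i hi
  unfold fz
  by_cases h : i + 1 ∈ S
  · rw [if_pos h]
    exact ev_fac hz hq ⟨h, by have := Finset.mem_range.mp hi; omega⟩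
  · rw [if_neg h, fac_not_mem (fun h' => h h'.1)]
    exact Ev.one q

open Classical in
theorem cz_tr (S : Set ℕ) (z : ℂ) {n N : ℕ} (h : n ≤ N) : cz (tr S N) z n = cz S z n := by
  unfold cz
  apply Finset.sum_congr rfl
  intro p _
  have : (∀ i ∈ p.parts, i ∈ tr S N) ↔ (∀ i ∈ p.parts, i ∈ S) := by
    constructor
    · intro h1 i hi; exact (h1 i hi).1
    · intro h1 i hi
      exact ⟨h1 i hi, (p.le_of_mem_parts hi).trans h⟩
  by_cases h' : ∀ i ∈ p.parts, i ∈ S
  · rw [if_pos h', if_pos (this.mpr h')]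
  · rw [if_neg h', if_neg (fun h2 => h' (this.mp h2))]

/-- number of partitions, as a real number -/
noncomputable def pn (n : ℕ) : ℝ := (Fintype.card n.Partition : ℝ)

open Classical in
theorem norm_cz_le (S : Set ℕ) {z : ℂ} (hz : ‖z‖ ≤ 1) (n : ℕ) : ‖cz S z n‖ ≤ pn n := by
  unfold cz pn
  refine (norm_sum_le _ _).trans ?_
  have : ∀ p ∈ (Finset.univ : Finset n.Partition),
      ‖(if (∀ i ∈ p.parts, i ∈ S) then z ^ p.parts.card else 0 : ℂ)‖ ≤ 1 := by
    intro p _
    split_ifs
    · rw [norm_pow]; exact pow_le_one₀ (norm_nonneg _) hz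
    · simp
  refine (Finset.sum_le_sum this).trans ?_
  simp

theorem cz_univ_one (n : ℕ) : cz Set.univ 1 n = (pn n : ℂ) := by
  unfold cz pn
  simp

open Classical in
theorem summable_pn {r : ℝ} (hr0 : 0 ≤ r) (hr1 : r < 1) : Summable (fun n => pn n * r ^ n) := by
  have hnn : ∀ n, 0 ≤ pn n * r ^ n := fun n =>
    mul_nonneg (by unfold pn; positivity) (pow_nonneg hr0 n)
  apply summable_of_sum_range_le (c := Real.exp (r / (1 - r) ^ 2)) hnn
  intro N
  have hq : ‖(r : ℂ)‖ < 1 := by rw [Complex.norm_real, Real.norm_of_nonneg hr0]; exact hr1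
  obtain ⟨h1, h2⟩ := ev_gen Set.univ (z := 1) (by simp) hq N
  -- compare
  have h3 : ∀ n, ‖(Nat.Partition.genFun (fS (tr Set.univ N) 1)).coeff n * (r : ℂ) ^ n‖ =
      ((Nat.Partition.genFun (fS (tr Set.univ N) 1)).coeff n * (r : ℂ) ^ n).re := by
    intro n
    have : ∃ c : ℝ, 0 ≤ c ∧ (Nat.Partition.genFun (fS (tr Set.univ N) 1)).coeff n = c := by
      rw [coeff_gen]
      unfold cz
      refine ⟨∑ p : n.Partition, if (∀ i ∈ p.parts, i ∈ tr Set.univ N) then 1 else 0, ?_, ?_⟩
      · exact Finset.sum_nonneg (fun p _ => by split_ifs <;> norm_num)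
      · push_cast
        apply Finset.sum_congr rfl
        intro p _
        split_ifs <;> simp
    obtain ⟨c, hc, hc'⟩ := this
    rw [hc', ← Complex.ofReal_pow, ← Complex.ofReal_mul, Complex.norm_real, Complex.ofReal_re,
      Real.norm_of_nonneg (mul_nonneg hc (pow_nonneg hr0 n))]
  have hs : Summable (fun n => (Nat.Partition.genFun (fS (tr Set.univ N) 1)).coeff n *
      (r : ℂ) ^ n) := h1.of_norm
  have h4 : ∑' n, ‖(Nat.Partition.genFun (fS (tr Set.univ N) 1)).coeff n * (r : ℂ) ^ n‖ =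
      (∏ i ∈ Finset.range N, (1 - r ^ (i + 1))⁻¹) := by
    simp_rw [h3]
    rw [← Complex.re_tsum hs, h2]
    have : (∏ i ∈ Finset.range N, fz Set.univ 1 (r : ℂ) i) =
        ((∏ i ∈ Finset.range N, (1 - r ^ (i + 1))⁻¹ : ℝ) : ℂ) := by
      push_cast
      apply Finset.prod_congr rfl
      intro i _
      unfold fz
      simp
    rw [this, Complex.ofReal_re]
  calc ∑ n ∈ Finset.range N, pn n * r ^ n
      = ∑ n ∈ Finset.range N,
        ‖(Nat.Partition.genFun (fS (tr Set.univ N) 1)).coeff n * (r : ℂ) ^ n‖ := by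
        apply Finset.sum_congr rfl
        intro n hn
        rw [coeff_gen, cz_tr _ _ (Finset.mem_range.mp hn).le, cz_univ_one, norm_mul, norm_pow,
          Complex.norm_real, Complex.norm_real, Real.norm_of_nonneg hr0,
          Real.norm_of_nonneg (by unfold pn; positivity)]
    _ ≤ ∑' n, ‖(Nat.Partition.genFun (fS (tr Set.univ N) 1)).coeff n * (r : ℂ) ^ n‖ :=
        h1.sum_le_tsum _ (fun _ _ => norm_nonneg _)
    _ = ∏ i ∈ Finset.range N, (1 - r ^ (i + 1))⁻¹ := h4
    _ ≤ ∏ i ∈ Finset.range N, Real.exp (r ^ (i + 1) / (1 - r)) := by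
        apply Finset.prod_le_prod
        · intro i _
          have : r ^ (i + 1) < 1 := pow_lt_one₀ hr0 hr1 (by omega)
          exact inv_nonneg.mpr (by linarith)
        · intro i _
          set y := r ^ (i + 1) with hy
          have hy0 : 0 ≤ y := by positivity
          have hyr : y ≤ r := by
            rw [hy, pow_succ]
            calc r ^ i * r ≤ 1 * r := mul_le_mul_of_nonneg_right (pow_le_one₀ hr0 hr1.le) hr0
              _ = r := one_mul r
          have hy1 : 0 < 1 - y := by linarith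
          have h5 : (1 - y)⁻¹ = 1 + y / (1 - y) := by field_simp; ring
          rw [h5]
          have h6 : y / (1 - y) ≤ y / (1 - r) :=
            div_le_div_of_nonneg_left hy0 (by linarith) (by linarith)
          have h7 := Real.add_one_le_exp (y / (1 - r))
          linarith
    _ = Real.exp (∑ i ∈ Finset.range N, r ^ (i + 1) / (1 - r)) := (Real.exp_sum _ _).symm
    _ ≤ Real.exp (r / (1 - r) ^ 2) := by
        apply Real.exp_le_exp.mpr
        have h8 : ∑ i ∈ Finset.range N, r ^ (i + 1) / (1 - r) =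
            (r / (1 - r)) * ∑ i ∈ Finset.range N, r ^ i := by
          rw [Finset.mul_sum]
          apply Finset.sum_congr rfl
          intro i _
          ring
        rw [h8]
        have h9 : ∑ i ∈ Finset.range N, r ^ i ≤ (1 - r)⁻¹ := by
          rw [← tsum_geometric_of_lt_one hr0 hr1]
          exact (summable_geometric_of_lt_one hr0 hr1).sum_le_tsum _
            (fun _ _ => pow_nonneg hr0 _)
        have h10 : 0 ≤ r / (1 - r) := div_nonneg hr0 (by linarith)
        calc (r / (1 - r)) * ∑ i ∈ Finset.range N, r ^ i ≤ (r / (1 - r)) * (1 - r)⁻¹ :=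
              mul_le_mul_of_nonneg_left h9 h10
          _ = r / (1 - r) ^ 2 := by
              have : (1 - r) ≠ 0 := by linarith
              field_simp

theorem summable_cz (S : Set ℕ) {z q : ℂ} (hz : ‖z‖ ≤ 1) (hq : ‖q‖ < 1) :
    Summable (fun n => ‖cz S z n * q ^ n‖) := by
  apply Summable.of_nonneg_of_le (fun _ => norm_nonneg _) _ (summable_pn (norm_nonneg q) hq)
  intro n
  rw [norm_mul, norm_pow]
  exact mul_le_mul_of_nonneg_right (norm_cz_le S hz n) (by positivity)

theorem tendsto_prod (S : Set ℕ) {z q : ℂ} (hz : ‖z‖ ≤ 1) (hq : ‖q‖ < 1) :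
    Tendsto (fun N => ∏ i ∈ Finset.range N, fz S z q i) atTop (𝓝 (∑' n, cz S z n * q ^ n)) := by
  have h1 : ∀ N, ∏ i ∈ Finset.range N, fz S z q i = ∑' n, cz (tr S N) z n * q ^ n := by
    intro N
    rw [← (ev_gen S hz hq N).2]
    exact tsum_congr (fun n => by rw [coeff_gen])
  simp_rw [h1]
  apply tendsto_tsum_of_dominated_convergence (summable_pn (norm_nonneg q) hq)
  · intro n
    apply tendsto_const_nhds.congr'
    filter_upwards [eventually_ge_atTop n] with N hN
    rw [cz_tr S z hN]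
  · filter_upwards with N n
    rw [norm_mul, norm_pow]
    exact mul_le_mul_of_nonneg_right (norm_cz_le _ hz n) (by positivity)

open Classical in
/-- the double series -/
noncomputable def aij (S : Set ℕ) (z q : ℂ) (i j : ℕ) : ℂ :=
  if i + 1 ∈ S then (z * q ^ (i + 1)) ^ (j + 1) / ((j : ℂ) + 1) else 0

open Classical in
/-- `∑_{s ∈ S} q ^ s` -/
noncomputable def theta (S : Set ℕ) (q : ℂ) : ℂ := ∑' i : ℕ, if i + 1 ∈ S then q ^ (i + 1) else 0

theorem norm_aij_le (S : Set ℕ) {z q : ℂ} (hz : ‖z‖ ≤ 1) (hq : ‖q‖ < 1) (i j : ℕ) :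
    ‖aij S z q i j‖ ≤ ‖q‖ ^ i * ‖q‖ ^ j := by
  unfold aij
  split_ifs with h
  · rw [norm_div, norm_pow, norm_mul, norm_pow]
    have h1 : (1 : ℝ) ≤ ‖((j : ℂ) + 1)‖ := by
      have : ((j : ℂ) + 1) = ((j + 1 : ℝ) : ℂ) := by push_cast; ring
      rw [this, Complex.norm_real, Real.norm_of_nonneg (by positivity)]
      have : (0 : ℝ) ≤ j := by positivity
      linarith
    have h2 : (‖z‖ * ‖q‖ ^ (i + 1)) ^ (j + 1) ≤ ‖q‖ ^ (i + j) := by
      calc (‖z‖ * ‖q‖ ^ (i + 1)) ^ (j + 1) ≤ (1 * ‖q‖ ^ (i + 1)) ^ (j + 1) := by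
            apply pow_le_pow_left₀ (by positivity)
            exact mul_le_mul_of_nonneg_right hz (by positivity)
        _ = ‖q‖ ^ ((i + 1) * (j + 1)) := by rw [one_mul, ← pow_mul]
        _ ≤ ‖q‖ ^ (i + j) := by
            apply pow_le_pow_of_le_one (norm_nonneg _) hq.le
            nlinarith
    rw [← pow_add]
    calc (‖z‖ * ‖q‖ ^ (i + 1)) ^ (j + 1) / ‖((j : ℂ) + 1)‖
        ≤ (‖z‖ * ‖q‖ ^ (i + 1)) ^ (j + 1) / 1 :=
          div_le_div_of_nonneg_left (by positivity) one_pos h1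
      _ ≤ ‖q‖ ^ (i + j) := by rw [div_one]; exact h2
  · rw [norm_zero]; positivity

theorem summable_aij (S : Set ℕ) {z q : ℂ} (hz : ‖z‖ ≤ 1) (hq : ‖q‖ < 1) :
    Summable (fun x : ℕ × ℕ => aij S z q x.1 x.2) := by
  have h1 := summable_geometric_of_lt_one (norm_nonneg q) hq
  have h2 := h1.mul_of_nonneg h1 (fun _ => by positivity) (fun _ => by positivity)
  exact Summable.of_norm_bounded h2 (fun x => norm_aij_le S hz hq x.1 x.2)

theorem fz_eq_exp (S : Set ℕ) {z q : ℂ} (hz : ‖z‖ ≤ 1) (hq : ‖q‖ < 1) (i : ℕ) :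
    fz S z q i = Complex.exp (∑' j, aij S z q i j) := by
  unfold fz aij
  by_cases h : i + 1 ∈ S
  · rw [if_pos h]
    simp_rw [if_pos h]
    have hlt : ‖z * q ^ (i + 1)‖ < 1 := by
      rw [norm_mul, norm_pow]
      calc ‖z‖ * ‖q‖ ^ (i + 1) ≤ 1 * ‖q‖ ^ (i + 1) :=
            mul_le_mul_of_nonneg_right hz (by positivity)
        _ < 1 := by rw [one_mul]; exact pow_lt_one₀ (norm_nonneg _) hq (by omega)
    have h1 := Complex.hasSum_taylorSeries_neg_log hlt
    rw [← hasSum_nat_add_iff' 1] at h1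
    have h2 : (fun n : ℕ => (z * q ^ (i + 1)) ^ (n + 1) / (((n + 1 : ℕ) : ℂ))) =
        fun j : ℕ => (z * q ^ (i + 1)) ^ (j + 1) / ((j : ℂ) + 1) := by
      funext j; push_cast; rfl
    rw [h2] at h1
    rw [h1.tsum_eq]
    simp only [Finset.range_one, Finset.sum_singleton, pow_zero, Nat.cast_zero, div_zero, sub_zero]
    have hne : (1 - z * q ^ (i + 1)) ≠ 0 := by
      intro h0
      have : z * q ^ (i + 1) = 1 := by linear_combination -h0
      rw [this, norm_one] at hlt
      exact lt_irrefl _ hlt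
    rw [Complex.exp_neg, Complex.exp_log hne]
  · rw [if_neg h]
    simp_rw [if_neg h]
    rw [tsum_zero, Complex.exp_zero]

/-- The generating function of the `cz` as an exponential. -/
theorem tsum_cz (S : Set ℕ) {z q : ℂ} (hz : ‖z‖ ≤ 1) (hq : ‖q‖ < 1) :
    ∑' n, cz S z n * q ^ n =
      Complex.exp (∑' j : ℕ, z ^ (j + 1) / ((j : ℂ) + 1) * theta S (q ^ (j + 1))) := by
  have hs := summable_aij S hz hq
  have h1 : Tendsto (fun N => ∏ i ∈ Finset.range N, fz S z q i) atTop
      (𝓝 (Complex.exp (∑' i, ∑' j, aij S z q i j))) := by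
    have h2 : ∀ N, ∏ i ∈ Finset.range N, fz S z q i =
        Complex.exp (∑ i ∈ Finset.range N, ∑' j, aij S z q i j) := by
      intro N
      rw [Complex.exp_sum]
      exact Finset.prod_congr rfl (fun i _ => fz_eq_exp S hz hq i)
    simp_rw [h2]
    apply (Complex.continuous_exp.tendsto _).comp
    exact hs.prod.hasSum.tendsto_sum_nat
  rw [tendsto_nhds_unique (tendsto_prod S hz hq) h1]
  congr 1
  rw [← Summable.tsum_comm (f := fun i j => aij S z q i j) hs]
  apply tsum_congr
  intro j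
  unfold theta
  rw [← tsum_mul_left]
  apply tsum_congr
  intro i
  unfold aij
  split_ifs
  · rw [mul_pow, ← pow_mul, ← pow_mul, mul_comm (i + 1) (j + 1)]; ring
  · rw [mul_zero]

end Pool.Agent.V11312.PartGF
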