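import Mathlib
import Pool.Agent.V11312.PartGF

set_option autoImplicit false

open Filter Topology

namespace Pool.Agent.V11312.OddParts

open Pool.Agent.V11312.PartGF

/-- the odd numbers -/
def Od : Set ℕ := {n | Odd n}

theorem theta_odd {q : ℂ} (hq : ‖q‖ < 1) : theta Od q = q / (1 - q ^ 2) := by
  unfold theta
  have hinj : Function.Injective (fun k : ℕ => 2 * k) := fun a b h => by
    simp only at h; omega
  have hout : ∀ n ∉ Set.range (fun k : ℕ => 2 * k),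
      (fun i : ℕ => (open Classical in if i + 1 ∈ Od then q ^ (i + 1) else 0 : ℂ)) n = 0 := by
    intro n hn
    simp only
    rw [if_neg]
    intro h
    have h1 : Odd (n + 1) := h
    apply hn
    obtain ⟨k, hk⟩ := h1
    exact ⟨k, by simp only; omega⟩
  have hcomp : (fun i : ℕ => (open Classical in if i + 1 ∈ Od then q ^ (i + 1) else 0 : ℂ)) ∘
      (fun k : ℕ => 2 * k) = fun k => q * (q ^ 2) ^ k := by
    funext k
    simp only [Function.comp_apply]
    have : 2 * k + 1 ∈ Od := ⟨k, rfl⟩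
    rw [if_pos this, ← pow_mul]; ring
  have hlt : ‖q ^ 2‖ < 1 := by
    rw [norm_pow]; exact pow_lt_one₀ (norm_nonneg _) hq (by norm_num)
  have hsum : HasSum (fun i : ℕ => (open Classical in if i + 1 ∈ Od then q ^ (i + 1) else 0 : ℂ))
      (q * (1 - q ^ 2)⁻¹) := by
    rw [← hinj.hasSum_iff hout, hcomp]
    exact (hasSum_geometric_of_norm_lt_one hlt).mul_left q
  rw [hsum.tsum_eq]; rfl

/-- the logarithm of the generating function -/
noncomputable def L (z q : ℂ) : ℂ := ∑' j : ℕ, z ^ (j + 1) / ((j : ℂ) + 1) * theta Od (q ^ (j + 1))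

/-- its leading coefficient near a root of unity -/
noncomputable def Bc (z ρ : ℂ) : ℂ :=
  ∑' j : ℕ, if ρ ^ (2 * (j + 1)) = 1 then (z * ρ) ^ (j + 1) / (2 * ((j : ℂ) + 1) ^ 2) else 0

theorem exp_aux {u : ℝ} (hu : 0 < u) : Real.exp (-u) / (1 - Real.exp (-u) ^ 2) ≤ 1 / (2 * u) := by
  have h1 : u ≤ Real.sinh u := Real.self_le_sinh_iff.mpr hu.le
  have h2 : Real.sinh u = (Real.exp u - Real.exp (-u)) / 2 := Real.sinh_eq u
  have h3 : Real.exp u * Real.exp (-u) = 1 := by rw [← Real.exp_add]; simp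
  have h4 : 0 < Real.exp (-u) := Real.exp_pos _
  have h5 : Real.exp (-u) < 1 := by rw [Real.exp_lt_one_iff]; linarith
  have h6 : 0 < 1 - Real.exp (-u) ^ 2 := by nlinarith
  rw [div_le_div_iff₀ h6 (by linarith)]
  have h7 : 2 * u ≤ Real.exp u - Real.exp (-u) := by linarith
  nlinarith

theorem norm_theta_le {w y : ℂ} (hw : ‖w‖ = 1) {x : ℝ} (hx : 0 < x) (hy : 0 < y.re) :
    ‖(x : ℂ) * theta Od (w * Complex.exp (-(x * y)))‖ ≤ 1 / (2 * y.re) := by
  have hn : ‖w * Complex.exp (-(x * y))‖ = Real.exp (-(x * y.re)) := by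
    rw [norm_mul, hw, one_mul, Complex.norm_exp]; simp
  have hxy : 0 < x * y.re := mul_pos hx hy
  have hlt : ‖w * Complex.exp (-(x * y))‖ < 1 := by
    rw [hn, Real.exp_lt_one_iff]; linarith
  rw [theta_odd hlt, norm_mul, norm_div, Complex.norm_real, Real.norm_of_nonneg hx.le]
  have h1 : 1 - ‖w * Complex.exp (-(x * y))‖ ^ 2 ≤ ‖1 - (w * Complex.exp (-(x * y))) ^ 2‖ := by
    have := norm_sub_norm_le (1 : ℂ) ((w * Complex.exp (-(x * y))) ^ 2)
    rwa [norm_one, norm_pow] at this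
  have h2 : 0 < 1 - ‖w * Complex.exp (-(x * y))‖ ^ 2 := by
    have := norm_nonneg (w * Complex.exp (-(x * y)))
    nlinarith
  calc x * (‖w * Complex.exp (-(x * y))‖ / ‖1 - (w * Complex.exp (-(x * y))) ^ 2‖)
      ≤ x * (‖w * Complex.exp (-(x * y))‖ / (1 - ‖w * Complex.exp (-(x * y))‖ ^ 2)) := by
        apply mul_le_mul_of_nonneg_left _ hx.le
        exact div_le_div_of_nonneg_left (norm_nonneg _) h2 h1
    _ ≤ x * (1 / (2 * (x * y.re))) := by
        apply mul_le_mul_of_nonneg_left _ hx.le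
        rw [hn]; exact exp_aux hxy
    _ = 1 / (2 * y.re) := by field_simp

theorem tendsto_aux {y : ℂ} (hy : y ≠ 0) :
    Tendsto (fun x : ℝ => (x : ℂ) / (1 - Complex.exp (-(x * y)) ^ 2)) (𝓝[>] 0)
      (𝓝 (1 / (2 * y))) := by
  have h1 : HasDerivAt (fun x : ℝ => (1 : ℂ) - Complex.exp (-(2 * (x * y)))) (2 * y) 0 := by
    have h2 : HasDerivAt (fun x : ℝ => -(2 * ((x : ℂ) * y))) (-(2 * y)) 0 := by
      have h3 : HasDerivAt (fun x : ℝ => (x : ℂ)) 1 0 := Complex.ofRealCLM.hasDerivAt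
      have h4 := ((h3.mul_const y).const_mul 2).fun_neg
      rw [one_mul] at h4
      exact h4
    have h5 := h2.cexp
    have h6 := h5.const_sub 1
    simp only [Complex.ofReal_zero, zero_mul, mul_zero, neg_zero, Complex.exp_zero, one_mul,
      neg_neg] at h6
    exact h6
  have h7 := h1.tendsto_slope_zero_right
  have h8 : Tendsto (fun x : ℝ => (x⁻¹ • ((1 : ℂ) - Complex.exp (-(2 * (x * y)))))⁻¹) (𝓝[>] 0)
      (𝓝 (2 * y)⁻¹) := by
    apply Tendsto.inv₀ _ (mul_ne_zero two_ne_zero hy)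
    refine h7.congr (fun x => ?_)
    simp
  rw [one_div]
  refine h8.congr' ?_
  filter_upwards [self_mem_nhdsWithin] with x hx
  have hx0 : (x : ℂ) ≠ 0 := by
    have : (0 : ℝ) < x := hx
    exact_mod_cast this.ne'
  have e1 : Complex.exp (-(2 * (x * y))) = Complex.exp (-(x * y)) ^ 2 := by
    rw [← Complex.exp_nat_mul]; congr 1; push_cast; ring
  rw [e1, Complex.real_smul, mul_inv, Complex.ofReal_inv, inv_inv]; rfl

theorem tendsto_theta {w y : ℂ} (hw : ‖w‖ = 1) (hy : 0 < y.re) :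
    Tendsto (fun x : ℝ => (x : ℂ) * theta Od (w * Complex.exp (-(x * y)))) (𝓝[>] 0)
      (𝓝 (if w ^ 2 = 1 then w / (2 * y) else 0)) := by
  have hy0 : y ≠ 0 := by rintro rfl; simp at hy
  have hcont : Tendsto (fun x : ℝ => Complex.exp (-(x * y))) (𝓝[>] 0) (𝓝 1) := by
    have h1 : Continuous (fun x : ℝ => Complex.exp (-(x * y))) := by fun_prop
    have h2 := (h1.tendsto 0).mono_left (nhdsWithin_le_nhds (s := Set.Ioi (0 : ℝ)))
    simpa using h2
  have hform : ∀ᶠ x : ℝ in 𝓝[>] 0, (x : ℂ) * theta Od (w * Complex.exp (-(x * y))) =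
      w * Complex.exp (-(x * y)) * ((x : ℂ) / (1 - w ^ 2 * Complex.exp (-(x * y)) ^ 2)) := by
    filter_upwards [self_mem_nhdsWithin] with x hx
    have hx' : (0 : ℝ) < x := hx
    have hlt : ‖w * Complex.exp (-(x * y))‖ < 1 := by
      rw [norm_mul, hw, one_mul, Complex.norm_exp, Real.exp_lt_one_iff]
      simp [hx', hy]
    rw [theta_odd hlt]
    rw [mul_pow]
    ring
  split_ifs with h
  · have h1 := (hcont.const_mul w).mul (tendsto_aux hy0)
    rw [mul_one] at h1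
    have e : w * (1 / (2 * y)) = w / (2 * y) := by ring
    rw [e] at h1
    refine h1.congr' ?_
    filter_upwards [hform] with x hx
    rw [hx, h, one_mul]
  · have h2 : Tendsto (fun x : ℝ => (x : ℂ)) (𝓝[>] 0) (𝓝 0) := by
      have h1 : Continuous (fun x : ℝ => (x : ℂ)) := Complex.continuous_ofReal
      have h2 := (h1.tendsto 0).mono_left (nhdsWithin_le_nhds (s := Set.Ioi (0 : ℝ)))
      simpa using h2
    have h3 : Tendsto (fun x : ℝ => 1 - w ^ 2 * Complex.exp (-(x * y)) ^ 2) (𝓝[>] 0)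
        (𝓝 (1 - w ^ 2 * 1 ^ 2)) := ((hcont.pow 2).const_mul _).const_sub 1
    have hne : (1 - w ^ 2 * 1 ^ 2) ≠ 0 := by
      intro h0; apply h; linear_combination -h0
    have h4 := (hcont.const_mul w).mul (h2.div h3 hne)
    rw [zero_div, mul_zero] at h4
    exact h4.congr' (by filter_upwards [hform] with x hx; rw [hx]; rfl)

theorem summ_inv_sq : Summable (fun j : ℕ => 1 / ((j : ℝ) + 1) ^ 2) := by
  have h := (summable_nat_add_iff 1).mpr (Real.summable_one_div_nat_pow.mpr (by norm_num : 1 < 2))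
  exact h.congr (fun j => by push_cast; rfl)

/-- The asymptotic behaviour of the logarithm along a ray. -/
theorem tendsto_L {z ρ s : ℂ} (hz : ‖z‖ = 1) (hρ : ‖ρ‖ = 1) (hs : 0 < s.re) :
    Tendsto (fun x : ℝ => (x : ℂ) * L z (ρ * Complex.exp (-(x * s)))) (𝓝[>] 0)
      (𝓝 (Bc z ρ / s)) := by
  have hs0 : s ≠ 0 := by rintro rfl; simp at hs
  have h1 : ∀ x : ℝ, (x : ℂ) * L z (ρ * Complex.exp (-(x * s))) =
      ∑' j : ℕ, z ^ (j + 1) / ((j : ℂ) + 1) *
        ((x : ℂ) * theta Od (ρ ^ (j + 1) * Complex.exp (-(x * (s * ((j : ℂ) + 1)))))) := by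
    intro x
    unfold L
    rw [← tsum_mul_left]
    apply tsum_congr
    intro j
    have : (ρ * Complex.exp (-(x * s))) ^ (j + 1) =
        ρ ^ (j + 1) * Complex.exp (-(x * (s * ((j : ℂ) + 1)))) := by
      rw [mul_pow, ← Complex.exp_nat_mul]; congr 2; push_cast; ring
    rw [this]; ring
  have h2 : Bc z ρ / s = ∑' j : ℕ, z ^ (j + 1) / ((j : ℂ) + 1) *
      (if (ρ ^ (j + 1)) ^ 2 = 1 then ρ ^ (j + 1) / (2 * (s * ((j : ℂ) + 1))) else 0) := by
    unfold Bc
    rw [← tsum_div_const]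
    apply tsum_congr
    intro j
    have hj : ((j : ℂ) + 1) ≠ 0 := by exact_mod_cast Nat.succ_ne_zero j
    have e : (ρ ^ (j + 1)) ^ 2 = ρ ^ (2 * (j + 1)) := by rw [← pow_mul, mul_comm]
    rw [e]
    split_ifs
    · rw [mul_pow]; field_simp
    · simp
  simp_rw [h1]
  rw [h2]
  have hre : ∀ j : ℕ, (s * ((j : ℂ) + 1)).re = s.re * ((j : ℝ) + 1) := by
    intro j
    have : ((j : ℂ) + 1) = (((j : ℝ) + 1 : ℝ) : ℂ) := by push_cast; rfl
    rw [this, Complex.re_mul_ofReal]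
  apply tendsto_tsum_of_dominated_convergence (bound := fun j : ℕ =>
    (1 / (2 * s.re)) * (1 / ((j : ℝ) + 1) ^ 2)) (summ_inv_sq.mul_left _)
  · intro j
    apply Tendsto.const_mul
    apply tendsto_theta
    · rw [norm_pow, hρ, one_pow]
    · rw [hre]; positivity
  · filter_upwards [self_mem_nhdsWithin] with x hx j
    have hx' : (0 : ℝ) < x := hx
    have h3 := norm_theta_le (w := ρ ^ (j + 1)) (y := s * ((j : ℂ) + 1))
      (by rw [norm_pow, hρ, one_pow]) hx' (by rw [hre]; positivity)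
    rw [norm_mul, norm_div, norm_pow, hz, one_pow]
    have h4 : ‖((j : ℂ) + 1)‖ = (j : ℝ) + 1 := by
      have : ((j : ℂ) + 1) = (((j : ℝ) + 1 : ℝ) : ℂ) := by push_cast; rfl
      rw [this, Complex.norm_real, Real.norm_of_nonneg (by positivity)]
    rw [h4]
    rw [hre] at h3
    calc 1 / ((j : ℝ) + 1) * ‖(x : ℂ) * theta Od (ρ ^ (j + 1) *
          Complex.exp (-(x * (s * ((j : ℂ) + 1)))))‖
        ≤ 1 / ((j : ℝ) + 1) * (1 / (2 * (s.re * ((j : ℝ) + 1)))) :=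
          mul_le_mul_of_nonneg_left h3 (by positivity)
      _ = (1 / (2 * s.re)) * (1 / ((j : ℝ) + 1) ^ 2) := by field_simp

/-! ### Numerical bounds -/

theorem hasSum_inv_sq : HasSum (fun j : ℕ => 1 / ((j : ℝ) + 1) ^ 2) (Real.pi ^ 2 / 6) := by
  have h := hasSum_zeta_two
  rw [← hasSum_nat_add_iff' 1] at h
  simp only [Finset.range_one, Finset.sum_singleton, Nat.cast_zero, ne_eq, OfNat.ofNat_ne_zero,
    not_false_eq_true, zero_pow, div_zero, sub_zero] at h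
  exact h.congr_fun (fun j => by push_cast; rfl)

theorem pi_sq_lt : Real.pi ^ 2 < 9.8697 := by
  have h1 := Real.pi_lt_d6
  have h2 := Real.pi_pos
  nlinarith

theorem tail_lt : ∑' j : ℕ, 1 / (((j + 6 : ℕ) : ℝ) + 1) ^ 2 < 0.154 := by
  have h1 := hasSum_inv_sq.summable.sum_add_tsum_nat_add 6
  rw [hasSum_inv_sq.tsum_eq] at h1
  have h2 : ∑ i ∈ Finset.range 6, 1 / ((i : ℝ) + 1) ^ 2 = 5369 / 3600 := by
    simp only [Finset.sum_range_succ, Finset.sum_range_zero]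
    norm_num
  rw [h2] at h1
  have h3 := pi_sq_lt
  linarith

/-- `∑ Re(w^j c)/j²` -/
noncomputable def Sig (w c : ℂ) : ℝ := ∑' j : ℕ, (w ^ (j + 1) * c).re / ((j : ℝ) + 1) ^ 2

theorem sig_term_bound {w c : ℂ} (hw : ‖w‖ = 1) (j : ℕ) :
    |(w ^ (j + 1) * c).re / ((j : ℝ) + 1) ^ 2| ≤ ‖c‖ * (1 / ((j : ℝ) + 1) ^ 2) := by
  rw [abs_div, abs_of_pos (by positivity : (0 : ℝ) < ((j : ℝ) + 1) ^ 2), mul_one_div]
  apply div_le_div_of_nonneg_right _ (by positivity)
  refine (Complex.abs_re_le_norm _).trans ?_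
  rw [norm_mul, norm_pow, hw, one_pow, one_mul]

theorem summ_sig {w c : ℂ} (hw : ‖w‖ = 1) :
    Summable (fun j : ℕ => (w ^ (j + 1) * c).re / ((j : ℝ) + 1) ^ 2) :=
  Summable.of_norm_bounded (summ_inv_sq.mul_left ‖c‖) (fun j => by
    rw [Real.norm_eq_abs]; exact sig_term_bound hw j)

theorem sig_bound {w c : ℂ} (hw : ‖w‖ = 1) :
    |Sig w c - ∑ j ∈ Finset.range 6, (w ^ (j + 1) * c).re / ((j : ℝ) + 1) ^ 2| ≤
      ‖c‖ * 0.154 := by
  have h1 := (summ_sig (c := c) hw).sum_add_tsum_nat_add 6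
  have h2 : Sig w c - ∑ j ∈ Finset.range 6, (w ^ (j + 1) * c).re / ((j : ℝ) + 1) ^ 2 =
      ∑' j : ℕ, (w ^ ((j + 6) + 1) * c).re / (((j + 6 : ℕ) : ℝ) + 1) ^ 2 := by
    unfold Sig; linarith
  rw [h2, ← Real.norm_eq_abs]
  have hs6 : Summable (fun j : ℕ => ‖c‖ * (1 / (((j + 6 : ℕ) : ℝ) + 1) ^ 2)) :=
    ((summable_nat_add_iff 6).mpr summ_inv_sq).mul_left _
  refine (tsum_of_norm_bounded hs6.hasSum (fun j => by
    rw [Real.norm_eq_abs]; exact sig_term_bound hw (j + 6))).trans ?_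
  rw [tsum_mul_left]
  exact mul_le_mul_of_nonneg_left tail_lt.le (norm_nonneg _)

theorem Bc_of_sq_one {z ρ s : ℂ} (hz : ‖z‖ = 1) (hρ : ρ ^ 2 = 1) :
    (Bc z ρ / s).re = Sig (z * ρ) (1 / (2 * s)) := by
  have hρn : ‖ρ‖ = 1 := by
    have : ‖ρ‖ ^ 2 = 1 := by rw [← norm_pow, hρ, norm_one]
    nlinarith [norm_nonneg ρ]
  unfold Bc Sig
  rw [← tsum_div_const]
  have h1 : ∀ j : ℕ, (if ρ ^ (2 * (j + 1)) = 1 then (z * ρ) ^ (j + 1) / (2 * ((j : ℂ) + 1) ^ 2)
      else 0) / s = (z * ρ) ^ (j + 1) * (1 / (2 * s)) * ((1 / ((j : ℝ) + 1) ^ 2 : ℝ) : ℂ) := by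
    intro j
    rw [if_pos (by rw [pow_mul, hρ, one_pow])]
    push_cast
    have hj : ((j : ℂ) + 1) ≠ 0 := by exact_mod_cast Nat.succ_ne_zero j
    by_cases hs : s = 0
    · subst hs; simp
    · field_simp
  simp_rw [h1]
  have hw : ‖z * ρ‖ = 1 := by rw [norm_mul, hz, hρn, one_mul]
  have hsum : Summable (fun j : ℕ => (z * ρ) ^ (j + 1) * (1 / (2 * s)) *
      ((1 / ((j : ℝ) + 1) ^ 2 : ℝ) : ℂ)) := by
    apply Summable.of_norm_bounded (summ_inv_sq.mul_left ‖(1 / (2 * s))‖)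
    intro j
    rw [norm_mul, norm_mul, norm_pow, hw, one_pow, one_mul, Complex.norm_real,
      Real.norm_of_nonneg (by positivity)]
  rw [Complex.re_tsum hsum]
  apply tsum_congr
  intro j
  rw [Complex.re_mul_ofReal]
  ring

/-- If `ρ² ≠ 1` then the coefficient is small. -/
theorem Bc_small {z ρ : ℂ} (hz : ‖z‖ = 1) (hρn : ‖ρ‖ = 1) (hρ : ρ ^ 2 ≠ 1) :
    ‖Bc z ρ‖ ≤ 0.206 := by
  set f : ℕ → ℝ := fun j => if ρ ^ (2 * (j + 1)) = 1 then 1 / (2 * ((j : ℝ) + 1) ^ 2) else 0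
    with hf
  have hfb : ∀ j : ℕ, ‖(if ρ ^ (2 * (j + 1)) = 1 then (z * ρ) ^ (j + 1) / (2 * ((j : ℂ) + 1) ^ 2)
      else 0 : ℂ)‖ = f j := by
    intro j
    simp only [hf]
    split_ifs
    · rw [norm_div, norm_pow, norm_mul, hz, hρn, one_mul, one_pow, norm_mul, norm_pow]
      have h4 : ‖((j : ℂ) + 1)‖ = (j : ℝ) + 1 := by
        have : ((j : ℂ) + 1) = (((j : ℝ) + 1 : ℝ) : ℂ) := by push_cast; rfl
        rw [this, Complex.norm_real, Real.norm_of_nonneg (by positivity)]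
      rw [h4]; norm_num
    · simp
  have hf0 : ∀ j, 0 ≤ f j := fun j => by simp only [hf]; split_ifs <;> positivity
  have hfle : ∀ j, f j ≤ 1 / ((j : ℝ) + 1) ^ 2 := by
    intro j
    simp only [hf]
    split_ifs
    · apply one_div_le_one_div_of_le (by positivity)
      nlinarith [sq_nonneg ((j : ℝ) + 1)]
    · positivity
  have hfs : Summable f := Summable.of_nonneg_of_le hf0 hfle summ_inv_sq
  have h1 : ‖Bc z ρ‖ ≤ ∑' j, f j := by
    unfold Bc
    apply tsum_of_norm_bounded hfs.hasSum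
    intro j; rw [hfb j]
  have hf00 : f 0 = 0 := by
    simp only [hf]
    rw [if_neg]
    simpa using hρ
  have hfs1 : Summable (fun j => f (j + 1)) := (summable_nat_add_iff 1).mpr hfs
  have h2 : ∑' j, f j = ∑' j, f (j + 1) := by
    rw [hfs.tsum_eq_zero_add, hf00, zero_add]
  have he : Summable (fun k => f (2 * k + 1)) :=
    hfs1.comp_injective (i := fun k : ℕ => 2 * k) (fun a b h => by simp only at h; omega)
  have ho : Summable (fun k => f (2 * k + 1 + 1)) :=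
    hfs1.comp_injective (i := fun k : ℕ => 2 * k + 1) (fun a b h => by simp only at h; omega)
  have h3 : ∑' j, f (j + 1) = ∑' k, (f (2 * k + 1) + f (2 * k + 1 + 1)) := by
    rw [he.tsum_add ho]
    exact (tsum_even_add_odd (f := fun j => f (j + 1)) he ho).symm
  have h4 : ∀ k : ℕ, f (2 * k + 1) + f (2 * k + 1 + 1) ≤ (1 / 8) * (1 / ((k : ℝ) + 1) ^ 2) := by
    intro k
    have e1 : (1 : ℝ) / (2 * (((2 * k + 1 : ℕ) : ℝ) + 1) ^ 2) = (1 / 8) * (1 / ((k : ℝ) + 1) ^ 2) := by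
      push_cast
      have : ((2 : ℝ) * k + 1 + 1) = 2 * (k + 1) := by ring
      rw [this]; field_simp; norm_num
    have e2 : (1 : ℝ) / (2 * (((2 * k + 1 + 1 : ℕ) : ℝ) + 1) ^ 2) ≤
        (1 / 8) * (1 / ((k : ℝ) + 1) ^ 2) := by
      rw [← e1]
      apply one_div_le_one_div_of_le (by positivity)
      push_cast
      have : (0 : ℝ) ≤ k := by positivity
      nlinarith
    have e3 : (0 : ℝ) ≤ (1 / 8) * (1 / ((k : ℝ) + 1) ^ 2) := by positivity
    simp only [hf]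
    by_cases ha : ρ ^ (2 * (2 * k + 1 + 1)) = 1
    · have hb : ρ ^ (2 * (2 * k + 1 + 1 + 1)) ≠ 1 := by
        intro hb
        apply hρ
        have : 2 * (2 * k + 1 + 1 + 1) = 2 * (2 * k + 1 + 1) + 2 := by ring
        rw [this, pow_add, ha, one_mul] at hb
        exact hb
      rw [if_pos ha, if_neg hb, add_zero]
      exact e1.le
    · rw [if_neg ha, zero_add]
      split_ifs
      · exact e2
      · exact e3
  have hs8 : Summable (fun k : ℕ => (1 / 8) * (1 / ((k : ℝ) + 1) ^ 2)) := summ_inv_sq.mul_left _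
  have h5 : ∑' k, (f (2 * k + 1) + f (2 * k + 1 + 1)) ≤ (1 / 8) * (Real.pi ^ 2 / 6) := by
    rw [← hasSum_inv_sq.tsum_eq, ← tsum_mul_left]
    exact (he.add ho).tsum_le_tsum h4 hs8
  have h6 := pi_sq_lt
  rw [h2, h3] at h1
  linarith

/-! ### The cube roots of unity -/

/-- `ζ = e^{2πi/3}` -/
noncomputable def ζ : ℂ := ⟨-1 / 2, Real.sqrt 3 / 2⟩
/-- `ζ̄ = e^{-2πi/3}` -/
noncomputable def ζ' : ℂ := ⟨-1 / 2, -(Real.sqrt 3 / 2)⟩

theorem s3 : Real.sqrt 3 * Real.sqrt 3 = 3 := Real.mul_self_sqrt (by norm_num)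

theorem h_lo : (0.866 : ℝ) < Real.sqrt 3 / 2 := by
  have : (1.732 : ℝ) < Real.sqrt 3 := by rw [Real.lt_sqrt (by norm_num)]; norm_num
  linarith

theorem h_hi : Real.sqrt 3 / 2 < (0.8661 : ℝ) := by
  have : Real.sqrt 3 < (1.7322 : ℝ) := by rw [Real.sqrt_lt' (by norm_num)]; norm_num
  linarith

theorem ζ_quad : ζ ^ 2 = -1 - ζ := by
  apply Complex.ext
  · simp [ζ, pow_two, Complex.mul_re]; nlinarith [s3]
  · simp [ζ, pow_two, Complex.mul_im]; ring

theorem ζ'_quad : ζ' ^ 2 = -1 - ζ' := by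
  apply Complex.ext
  · simp [ζ', pow_two, Complex.mul_re]; nlinarith [s3]
  · simp [ζ', pow_two, Complex.mul_im]; ring

theorem ζ_sq : ζ ^ 2 = ζ' := by
  rw [ζ_quad]; apply Complex.ext <;> simp [ζ, ζ'] <;> ring

theorem ζ'_sq : ζ' ^ 2 = ζ := by
  rw [ζ'_quad]; apply Complex.ext <;> simp [ζ, ζ'] <;> ring

theorem ζ_cube : ζ ^ 3 = 1 := by
  have : ζ ^ 3 = ζ * ζ ^ 2 := by ring
  rw [this, ζ_quad]; linear_combination -ζ_quad

theorem ζ'_cube : ζ' ^ 3 = 1 := by
  have : ζ' ^ 3 = ζ' * ζ' ^ 2 := by ring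
  rw [this, ζ'_quad]; linear_combination -ζ'_quad

theorem ζ_norm : ‖ζ‖ = 1 := by
  have h : ‖ζ‖ ^ 3 = 1 := by rw [← norm_pow, ζ_cube, norm_one]
  exact (pow_eq_one_iff_of_nonneg (norm_nonneg _) (by norm_num)).mp h

theorem ζ'_norm : ‖ζ'‖ = 1 := by
  have h : ‖ζ'‖ ^ 3 = 1 := by rw [← norm_pow, ζ'_cube, norm_one]
  exact (pow_eq_one_iff_of_nonneg (norm_nonneg _) (by norm_num)).mp h

theorem sum6_cube {w c : ℂ} (hw : w ^ 2 = -1 - w) :
    ∑ j ∈ Finset.range 6, (w ^ (j + 1) * c).re / ((j : ℝ) + 1) ^ 2 =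
      (w * c).re * (1 - 1 / 4 + 1 / 16 - 1 / 25) +
      c.re * (-1 / 4 + 1 / 9 - 1 / 25 + 1 / 36) := by
  have h1 : w ^ 3 = 1 := by linear_combination (w - 1) * hw
  have h2 : w ^ 4 = w := by linear_combination w * h1
  have h3 : w ^ 5 = -1 - w := by linear_combination w ^ 2 * h1 + hw
  have h4 : w ^ 6 = 1 := by linear_combination (w ^ 3 + 1) * h1
  have e1 : ((-1 - w) * c).re = -c.re - (w * c).re := by
    have : (-1 - w) * c = -c - w * c := by ring
    rw [this, Complex.sub_re, Complex.neg_re]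
  simp only [Finset.sum_range_succ, Finset.sum_range_zero, zero_add, Nat.cast_zero, Nat.cast_one,
    Nat.cast_ofNat, pow_one, Nat.reduceAdd]
  rw [hw, h1, h2, h3, h4, e1, one_mul]
  ring

theorem sum6_sixth {w c : ℂ} (hw : w ^ 2 = w - 1) :
    ∑ j ∈ Finset.range 6, (w ^ (j + 1) * c).re / ((j : ℝ) + 1) ^ 2 =
      (w * c).re * (1 + 1 / 4 - 1 / 16 - 1 / 25) +
      c.re * (-1 / 4 - 1 / 9 + 1 / 25 + 1 / 36) := by
  have h1 : w ^ 3 = -1 := by linear_combination (w + 1) * hw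
  have h2 : w ^ 4 = -w := by linear_combination w * h1
  have h3 : w ^ 5 = 1 - w := by linear_combination w ^ 2 * h1 - hw
  have h4 : w ^ 6 = 1 := by linear_combination (w ^ 3 - 1) * h1
  have e1 : ((w - 1) * c).re = (w * c).re - c.re := by
    have : (w - 1) * c = w * c - c := by ring
    rw [this, Complex.sub_re]
  have e2 : ((1 - w) * c).re = c.re - (w * c).re := by
    have : (1 - w) * c = c - w * c := by ring
    rw [this, Complex.sub_re]
  have e3 : (-1 * c).re = -c.re := by rw [neg_one_mul, Complex.neg_re]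
  have e4 : (-w * c).re = -(w * c).re := by rw [neg_mul, Complex.neg_re]
  simp only [Finset.sum_range_succ, Finset.sum_range_zero, zero_add, Nat.cast_zero, Nat.cast_one,
    Nat.cast_ofNat, pow_one, Nat.reduceAdd]
  rw [hw, h1, h2, h3, h4, e1, e2, e3, e4, one_mul]
  ring

/-- the direction `1 + i` -/
noncomputable def dir : ℂ := ⟨1, 1⟩

theorem inv_dir : 1 / (2 * dir) = ⟨1 / 4, -(1 / 4)⟩ := by
  have h : dir ≠ 0 := by intro h; have := congrArg Complex.re h; simp [dir] at this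
  rw [div_eq_iff (mul_ne_zero two_ne_zero h)]
  apply Complex.ext
  · simp [dir, Complex.mul_re, Complex.mul_im]; norm_num
  · simp [dir, Complex.mul_re, Complex.mul_im]

theorem inv_one' : (1 : ℂ) / (2 * 1) = ⟨1 / 2, 0⟩ := by
  apply Complex.ext <;> simp

theorem norm_c1 : ‖(⟨1 / 2, 0⟩ : ℂ)‖ ≤ 0.5 := by
  rw [Complex.norm_def, Complex.normSq_mk]
  rw [Real.sqrt_le_iff]; norm_num

theorem norm_c2 : ‖(⟨1 / 4, -(1 / 4)⟩ : ℂ)‖ ≤ 0.3536 := by
  rw [Complex.norm_def, Complex.normSq_mk]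
  rw [Real.sqrt_le_iff]; norm_num

theorem dir_re : 0 < dir.re := by simp [dir]

theorem dir_norm : 1 ≤ ‖dir‖ := by
  have := Complex.abs_re_le_norm dir
  simpa [dir] using this

theorem re_mul_mk (a b c d : ℝ) : ((⟨a, b⟩ : ℂ) * ⟨c, d⟩).re = a * c - b * d := by
  rw [Complex.mul_re]

theorem sig_cube {w c : ℂ} (hwn : ‖w‖ = 1) (hw : w ^ 2 = -1 - w) {K : ℝ} (hc : ‖c‖ ≤ K) :
    Sig w c ≤ (w * c).re * 0.7725 - c.re * 0.1511 + |c.re| * 0.0001 + K * 0.154 := by
  have h1 := (abs_le.mp (sig_bound (c := c) hwn)).2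
  rw [sum6_cube hw] at h1
  have h2 : ‖c‖ * 0.154 ≤ K * 0.154 := mul_le_mul_of_nonneg_right hc (by norm_num)
  have h3 := neg_abs_le c.re
  have h4 := abs_nonneg c.re
  linarith

theorem sig_sixth {w c : ℂ} (hwn : ‖w‖ = 1) (hw : w ^ 2 = w - 1) {K : ℝ} (hc : ‖c‖ ≤ K) :
    |Sig w c - ((w * c).re * 1.1475 - c.re * 0.2933)| ≤ |c.re| * 0.0001 + K * 0.154 := by
  have h1 := sig_bound (c := c) hwn
  rw [sum6_sixth hw] at h1
  have h2 : ‖c‖ * 0.154 ≤ K * 0.154 := mul_le_mul_of_nonneg_right hc (by norm_num)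
  have h3 := neg_abs_le c.re
  have h4 := le_abs_self c.re
  have h5 := abs_nonneg c.re
  rw [abs_le] at h1 ⊢
  constructor <;> linarith [h1.1, h1.2]

theorem neg_ζ_quad : (ζ * -1) ^ 2 = ζ * -1 - 1 := by
  have : (ζ * -1) ^ 2 = ζ ^ 2 := by ring
  rw [this, ζ_quad]; ring

theorem neg_ζ'_quad : (ζ' * -1) ^ 2 = ζ' * -1 - 1 := by
  have : (ζ' * -1) ^ 2 = ζ' ^ 2 := by ring
  rw [this, ζ'_quad]; ring

theorem one_quad {z : ℂ} (h : z ^ 2 = -1 - z) : (z * 1) ^ 2 = -1 - z * 1 := by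
  rw [mul_one]; exact h

theorem neg_ζ_mk : ζ * -1 = ⟨1 / 2, -(Real.sqrt 3 / 2)⟩ := by
  apply Complex.ext
  · simp [ζ]; norm_num
  · simp [ζ]

theorem neg_ζ'_mk : ζ' * -1 = ⟨1 / 2, Real.sqrt 3 / 2⟩ := by
  apply Complex.ext
  · simp [ζ']; norm_num
  · simp [ζ']

/-- a bound for the non-dominant terms -/
theorem small_case {z ρ s : ℂ} (hz : z = ζ ∨ z = ζ') (hρ : ‖ρ‖ = 1) (hs : s = 1 ∨ s = dir)
    (hne : ¬ (z = ζ' ∧ ρ = -1 ∧ s = dir)) : (Bc z ρ / s).re ≤ 0.23 := by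
  have hzn : ‖z‖ = 1 := by rcases hz with rfl | rfl; exacts [ζ_norm, ζ'_norm]
  have hlo := h_lo
  have hhi := h_hi
  by_cases h2 : ρ ^ 2 = 1
  · rw [Bc_of_sq_one hzn h2]
    have hwn : ‖z * ρ‖ = 1 := by rw [norm_mul, hzn, hρ, one_mul]
    have h3 : ρ = 1 ∨ ρ = -1 := by
      rcases mul_eq_zero.mp (show (ρ - 1) * (ρ + 1) = 0 by linear_combination h2) with h | h
      · left; linear_combination h
      · right; linear_combination h
    rcases hz with rfl | rfl <;> rcases h3 with rfl | rfl <;> rcases hs with rfl | rfl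
    · have h4 := sig_cube hwn (one_quad ζ_quad) (c := 1 / (2 * 1)) (K := 0.5)
        (by rw [inv_one']; exact norm_c1)
      rw [inv_one', mul_one, ζ, re_mul_mk] at h4
      rw [inv_one', mul_one, ζ]
      norm_num at h4 ⊢
      linarith
    · have h4 := sig_cube hwn (one_quad ζ_quad) (c := 1 / (2 * dir)) (K := 0.3536)
        (by rw [inv_dir]; exact norm_c2)
      rw [inv_dir, mul_one, ζ, re_mul_mk] at h4
      rw [inv_dir, mul_one, ζ]
      norm_num at h4 ⊢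
      linarith
    · have h4 := (abs_le.mp (sig_sixth hwn neg_ζ_quad (c := 1 / (2 * 1)) (K := 0.5)
        (by rw [inv_one']; exact norm_c1))).2
      rw [inv_one', neg_ζ_mk, re_mul_mk] at h4
      rw [inv_one', neg_ζ_mk]
      norm_num at h4 ⊢
      linarith
    · have h4 := (abs_le.mp (sig_sixth hwn neg_ζ_quad (c := 1 / (2 * dir)) (K := 0.3536)
        (by rw [inv_dir]; exact norm_c2))).2
      rw [inv_dir, neg_ζ_mk, re_mul_mk] at h4
      rw [inv_dir, neg_ζ_mk]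
      norm_num at h4 ⊢
      linarith
    · have h4 := sig_cube hwn (one_quad ζ'_quad) (c := 1 / (2 * 1)) (K := 0.5)
        (by rw [inv_one']; exact norm_c1)
      rw [inv_one', mul_one, ζ', re_mul_mk] at h4
      rw [inv_one', mul_one, ζ']
      norm_num at h4 ⊢
      linarith
    · have h4 := sig_cube hwn (one_quad ζ'_quad) (c := 1 / (2 * dir)) (K := 0.3536)
        (by rw [inv_dir]; exact norm_c2)
      rw [inv_dir, mul_one, ζ', re_mul_mk] at h4
      rw [inv_dir, mul_one, ζ']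
      norm_num at h4 ⊢
      linarith
    · have h4 := (abs_le.mp (sig_sixth hwn neg_ζ'_quad (c := 1 / (2 * 1)) (K := 0.5)
        (by rw [inv_one']; exact norm_c1))).2
      rw [inv_one', neg_ζ'_mk, re_mul_mk] at h4
      rw [inv_one', neg_ζ'_mk]
      norm_num at h4 ⊢
      linarith
    · exact absurd ⟨rfl, rfl, rfl⟩ hne
  · have h3 := Bc_small hzn hρ h2
    have h4 : ‖Bc z ρ / s‖ ≤ 0.206 := by
      rw [norm_div]
      have h5 : 1 ≤ ‖s‖ := by rcases hs with rfl | rfl; exacts [by simp, dir_norm]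
      exact (div_le_self (norm_nonneg _) h5).trans h3
    have h6 := (abs_le.mp ((Complex.abs_re_le_norm _).trans h4)).2
    linarith

/-- the dominant term -/
theorem main_case : 0.255 ≤ (Bc ζ' (-1) / dir).re := by
  have hlo := h_lo
  rw [Bc_of_sq_one ζ'_norm (by norm_num)]
  have hwn : ‖ζ' * -1‖ = 1 := by rw [norm_mul, ζ'_norm]; simp
  have h4 := (abs_le.mp (sig_sixth hwn neg_ζ'_quad (c := 1 / (2 * dir)) (K := 0.3536)
    (by rw [inv_dir]; exact norm_c2))).1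
  rw [inv_dir, neg_ζ'_mk, re_mul_mk] at h4
  rw [inv_dir, neg_ζ'_mk]
  norm_num at h4 ⊢
  linarith

end Pool.Agent.V11312.OddParts
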